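import Mathlib

set_option autoImplicit false

namespace Pool.Agent.Helper752

open scoped ENNReal NNReal
open MeasureTheory

/-- A laminar family of finite sets. -/
def Laminar {ι : Type*} (M : Set (Finset ι)) : Prop :=
  ∀ A ∈ M, ∀ B ∈ M, A ⊆ B ∨ B ⊆ A ∨ Disjoint A B

/-- The potentials `φ` are admissible for the set `A` of labels: the sum is 1-Lipschitz. -/
def Lip {ι X : Type*} [PseudoMetricSpace X] (φ : ι → X → ℝ) (A : Finset ι) : Prop :=
  ∀ x y, ∑ i ∈ A, φ i x - ∑ i ∈ A, φ i y ≤ dist x y

theorem peel {ι X : Type*} [Fintype ι] [DecidableEq ι] [PseudoMetricSpace X] (δ : ℝ) :
    ∀ (n : ℕ) (V : Type) [Fintype V] [DecidableEq V] (_ : Fintype.card V = n)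
      (G : SimpleGraph V) (_ : G.Connected) (U : V → Set X) (w : V → ℝ)
      (_ : ∀ v, ∀ x ∈ U v, ∀ y ∈ U v, dist x y ≤ w v) (_ : ∀ v, w v ≤ δ)
      (_ : ∀ u v, G.Adj u v → (U u ∩ U v).Nonempty) (x : V → X) (_ : ∀ v, x v ∈ U v)
      (a : ι → V),
      ∃ M : Set (Finset ι), Laminar M ∧
        (∀ A ∈ M, ∀ i j, a i = a j → (i ∈ A ↔ j ∈ A)) ∧
        ∀ φ : ι → X → ℝ, (∀ A ∈ M, Lip φ A) → (∀ x, ∑ i, φ i x = 0) →
          ∑ i, φ i (x (a i)) ≤ ∑ v, w v + (Finset.univ.image a).card * δ := by
  intro n
  induction n with
  | zero =>
    intro V _ _ hc G hG
    have := hG.nonempty
    exact absurd hc Fintype.card_ne_zero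
  | succ n ih =>
    intro V _ _ hc G hG U w hw hwδ hadj x hx a
    have hw0 : ∀ v, 0 ≤ w v := fun v => by
      have := hw v (x v) (hx v) (x v) (hx v)
      rwa [dist_self] at this
    have := hG.nonempty
    have hδ : 0 ≤ δ := (hw0 (Classical.arbitrary V)).trans (hwδ _)
    rcases subsingleton_or_nontrivial V with hV | hV
    · refine ⟨∅, ?_, ?_, ?_⟩
      · intro A hA; exact absurd hA (Set.notMem_empty _)
      · intro A hA; exact absurd hA (Set.notMem_empty _)
      · intro φ _ h0
        have h1 : ∑ i, φ i (x (a i)) = ∑ i, φ i (x (Classical.arbitrary V)) := by
          refine Finset.sum_congr rfl fun i _ => ?_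
          rw [Subsingleton.elim (a i) (Classical.arbitrary V)]
        rw [h1, h0]
        have := Finset.sum_nonneg (fun v (_ : v ∈ Finset.univ) => hw0 v)
        positivity
    · obtain ⟨v, hv⟩ := hG.exists_connected_induce_compl_singleton_of_finite_nontrivial
      obtain ⟨u, hu⟩ : ∃ u, G.Adj v u := hG.preconnected.exists_adj_of_nontrivial v
      have huv : u ≠ v := fun h => G.loopless.irrefl v (h ▸ hu)
      obtain ⟨q, hqv, hqu⟩ := hadj v u hu
      -- the new vertex set
      let V' : Type := ↥({v}ᶜ : Set V)
      have : Fintype V' := inferInstanceAs (Fintype ↥({v}ᶜ : Set V))
      have : DecidableEq V' := Classical.decEq _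
      have hc' : Fintype.card V' = n := by
        have h1 : Fintype.card V' = Fintype.card V - 1 := by
          have h2 := Fintype.card_compl_set ({v} : Set V)
          rw [Set.card_singleton] at h2
          convert h2
        omega
      let u' : V' := ⟨u, by simpa using huv⟩
      -- new labelling
      let a' : ι → V' := fun i => if h : a i = v then u' else ⟨a i, by simpa using h⟩
      have ha'1 : ∀ i, a i = v → a' i = u' := fun i h => by simp [a', h]
      have ha'2 : ∀ i, a i ≠ v → (a' i : V) = a i := fun i h => by simp [a', h]
      have ha'eq : ∀ i j, a i = a j → a' i = a' j := by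
        intro i j h
        by_cases hi : a i = v
        · rw [ha'1 i hi, ha'1 j (h ▸ hi)]
        · apply Subtype.ext
          rw [ha'2 i hi, ha'2 j (h ▸ hi), h]
      have haux : ∀ i j, a' i = a' j → a i ≠ v → a j ≠ v → a i = a j := by
        intro i j h hi hj
        rw [← ha'2 i hi, ← ha'2 j hj, h]
      -- new base points
      let q' : X := if ∃ i, a i = u then x u else q
      have hq' : q' ∈ U u := by
        simp only [q']
        split_ifs
        · exact hx u
        · exact hqu
      let x' : V' → X := fun z => if z = u' then q' else x z
      have hx' : ∀ z : V', x' z ∈ U (z : V) := by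
        intro z
        simp only [x']
        split_ifs with h
        · rw [h]; exact hq'
        · exact hx z
      obtain ⟨M, hM1, hM2, hM3⟩ := ih V' hc' (G.induce {v}ᶜ) hv (fun z => U z) (fun z => w z)
        (fun z => hw z) (fun z => hwδ z) (fun z1 z2 h => hadj _ _ h) x' hx' a'
      let Sv : Finset ι := Finset.univ.filter fun i => a i = v
      have hSv : ∀ i, i ∈ Sv ↔ a i = v := fun i => by simp [Sv]
      have hnest : ∀ A ∈ M, Sv ⊆ A ∨ Disjoint Sv A := by
        intro A hA
        by_cases h : ∃ i ∈ Sv, i ∈ A
        · obtain ⟨i, hi, hiA⟩ := h
          left
          intro j hj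
          refine (hM2 A hA i j ?_).1 hiA
          apply ha'eq
          rw [(hSv i).1 hi, (hSv j).1 hj]
        · right
          rw [Finset.disjoint_left]
          intro i hi hiA
          exact h ⟨i, hi, hiA⟩
      refine ⟨insert Sv M, ?_, ?_, ?_⟩
      · intro A hA B hB
        rcases hA with rfl | hA
        · rcases hB with rfl | hB
          · left; exact subset_rfl
          · rcases hnest B hB with h | h
            · left; exact h
            · right; right; exact h
        · rcases hB with rfl | hB
          · rcases hnest A hA with h | h
            · right; left; exact h
            · right; right; exact h.symm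
          · exact hM1 A hA B hB
      · intro A hA i j hij
        rcases hA with rfl | hA
        · rw [hSv, hSv, hij]
        · exact hM2 A hA i j (ha'eq i j hij)
      · intro φ hφ h0
        have hφM : ∀ A ∈ M, Lip φ A := fun A hA => hφ A (Set.mem_insert_of_mem _ hA)
        have hφS : Lip φ Sv := hφ Sv (Set.mem_insert _ _)
        have hind := hM3 φ hφM h0
        -- sum of weights
        have hsumw : ∑ z : V, w z = w v + ∑ z : V', w (z : V) := by
          rw [← Finset.sum_erase_add _ _ (Finset.mem_univ v), add_comm]
          congr 1
          refine Finset.sum_bij' (fun z hz => (⟨z, by simpa using (Finset.ne_of_mem_erase hz)⟩ : V'))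
            (fun z _ => (z : V)) ?_ ?_ ?_ ?_ ?_
          · intro z hz; exact Finset.mem_univ _
          · intro z hz
            exact Finset.mem_erase.2 ⟨fun h => z.2 (Set.mem_singleton_iff.2 h), Finset.mem_univ _⟩
          · intro z hz; rfl
          · intro z hz; rfl
          · intro z hz; rfl
        -- split the left-hand sum
        have hsplit : ∀ f : ι → ℝ, ∑ i, f i = ∑ i ∈ Sv, f i + ∑ i ∈ Finset.univ.filter (fun i => ¬ a i = v), f i :=
          fun f => (Finset.sum_filter_add_sum_filter_not Finset.univ (fun i => a i = v) f).symm
        by_cases hvr : ∃ i, a i = v
        · by_cases hur : ∃ i, a i = u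
          · -- both nonempty
            have hq'u : q' = x u := by simp only [q']; rw [if_pos hur]
            have hx'z : ∀ z : V', x' z = x z := by
              intro z
              simp only [x']
              split_ifs with h
              · rw [h, hq'u]
              · rfl
            have e1 : ∑ i, φ i (x' (a' i)) = ∑ i ∈ Sv, φ i (x u)
                + ∑ i ∈ Finset.univ.filter (fun i => ¬ a i = v), φ i (x (a i)) := by
              rw [hsplit]
              congr 1
              · refine Finset.sum_congr rfl fun i hi => ?_
                rw [hx'z, ha'1 i ((hSv i).1 hi)]
              · refine Finset.sum_congr rfl fun i hi => ?_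
                rw [hx'z, ha'2 i (Finset.mem_filter.1 hi).2]
            have e2 : ∑ i, φ i (x (a i)) = ∑ i ∈ Sv, φ i (x v)
                + ∑ i ∈ Finset.univ.filter (fun i => ¬ a i = v), φ i (x (a i)) := by
              rw [hsplit]
              congr 1
              refine Finset.sum_congr rfl fun i hi => ?_
              rw [(hSv i).1 hi]
            have e3 := hφS (x v) q
            have e4 := hφS q (x u)
            have e5 := hw v (x v) (hx v) q hqv
            have e6 := hw u q hqu (x u) (hx u)
            have e7 := hwδ u
            have hcard : ((Finset.univ.image a').card : ℝ) + 1 ≤ (Finset.univ.image a).card := by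
              have : (Finset.univ.image a').card + 1 ≤ (Finset.univ.image a).card := by
                have h1 : ((Finset.univ.image a').image (fun z : V' => (z : V))) ⊆
                    (Finset.univ.image a).erase v := by
                  intro z hz
                  simp only [Finset.mem_image, Finset.mem_univ, true_and] at hz
                  obtain ⟨y, ⟨i, rfl⟩, rfl⟩ := hz
                  refine Finset.mem_erase.2 ⟨?_, ?_⟩
                  · exact fun h => (a' i).2 (Set.mem_singleton_iff.2 h)
                  · simp only [Finset.mem_image, Finset.mem_univ, true_and]
                    by_cases hi : a i = v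
                    · obtain ⟨j, hj⟩ := hur
                      exact ⟨j, by rw [hj, ha'1 i hi]⟩
                    · exact ⟨i, (ha'2 i hi).symm⟩
                have h2 := Finset.card_le_card h1
                rw [Finset.card_image_of_injective _ Subtype.val_injective] at h2
                have h3 : v ∈ Finset.univ.image a := by
                  simpa using hvr
                rw [Finset.card_erase_of_mem h3] at h2
                have h4 : 0 < (Finset.univ.image a).card := Finset.card_pos.2 ⟨v, h3⟩
                omega
              exact_mod_cast this
            have e8 : ((Finset.univ.image a').card : ℝ) * δ + δ ≤ (Finset.univ.image a).card * δ := by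
              nlinarith
            rw [e1] at hind
            rw [e2, hsumw]
            linarith
          · -- u empty
            have hq'u : q' = q := by simp only [q']; rw [if_neg hur]
            have e1 : ∑ i, φ i (x' (a' i)) = ∑ i ∈ Sv, φ i q
                + ∑ i ∈ Finset.univ.filter (fun i => ¬ a i = v), φ i (x (a i)) := by
              rw [hsplit]
              congr 1
              · refine Finset.sum_congr rfl fun i hi => ?_
                rw [ha'1 i ((hSv i).1 hi)]
                simp only [x', if_true, hq'u]
              · refine Finset.sum_congr rfl fun i hi => ?_
                have hi' := (Finset.mem_filter.1 hi).2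
                have : a' i ≠ u' := by
                  intro h
                  apply hur
                  refine ⟨i, ?_⟩
                  rw [← ha'2 i hi', h]
                simp only [x', if_neg this]
                rw [ha'2 i hi']
            have e2 : ∑ i, φ i (x (a i)) = ∑ i ∈ Sv, φ i (x v)
                + ∑ i ∈ Finset.univ.filter (fun i => ¬ a i = v), φ i (x (a i)) := by
              rw [hsplit]
              congr 1
              refine Finset.sum_congr rfl fun i hi => ?_
              rw [(hSv i).1 hi]
            have e3 := hφS (x v) q
            have e5 := hw v (x v) (hx v) q hqv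
            have hcard : ((Finset.univ.image a').card : ℝ) ≤ (Finset.univ.image a).card := by
              have : (Finset.univ.image a').card ≤ (Finset.univ.image a).card := by
                have h1 : Finset.univ.image a' = (Finset.univ.image a).image
                    (fun z => if h : z = v then u' else ⟨z, by simpa using h⟩) := by
                  rw [Finset.image_image]
                  rfl
                rw [h1]
                exact Finset.card_image_le
              exact_mod_cast this
            have e8 : ((Finset.univ.image a').card : ℝ) * δ ≤ (Finset.univ.image a).card * δ := by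
              nlinarith
            rw [e1] at hind
            rw [e2, hsumw]
            linarith
        · -- v empty
          have hall : ∀ i, a i ≠ v := fun i h => hvr ⟨i, h⟩
          have e1 : ∑ i, φ i (x' (a' i)) = ∑ i, φ i (x (a i)) := by
            refine Finset.sum_congr rfl fun i _ => ?_
            have h1 := ha'2 i (hall i)
            by_cases h : a' i = u'
            · have h2 : a i = u := by rw [← h1, h]
              have hq'u : q' = x u := by simp only [q']; rw [if_pos ⟨i, h2⟩]
              simp only [x', if_pos h, hq'u, h2]
            · simp only [x', if_neg h, h1]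
          have hcard : ((Finset.univ.image a').card : ℝ) ≤ (Finset.univ.image a).card := by
            have : (Finset.univ.image a').card ≤ (Finset.univ.image a).card := by
              have h1 : Finset.univ.image a' = (Finset.univ.image a).image
                  (fun z => if h : z = v then u' else ⟨z, by simpa using h⟩) := by
                rw [Finset.image_image]
                rfl
              rw [h1]
              exact Finset.card_image_le
            exact_mod_cast this
          have e8 : ((Finset.univ.image a').card : ℝ) * δ ≤ (Finset.univ.image a).card * δ := by
            nlinarith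
          have := hw0 v
          rw [e1] at hind
          rw [hsumw]
          linarith

end Pool.Agent.Helper752
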