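import Mathlib
import Pool.Agent.Helper752.Peel

set_option autoImplicit false

namespace Pool.Agent.Helper752

open scoped ENNReal NNReal
open MeasureTheory Metric

/-- The potentials `φ` are admissible on `K` for the set `A` of labels. -/
def LipOn {ι X : Type*} [PseudoMetricSpace X] (K : Set X) (φ : ι → X → ℝ) (A : Finset ι) : Prop :=
  ∀ x ∈ K, ∀ y ∈ K, ∑ i ∈ A, φ i x - ∑ i ∈ A, φ i y ≤ dist x y

theorem exists_laminar {ι X : Type*} [Fintype ι] [DecidableEq ι] [MetricSpace X]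
    [MeasurableSpace X] [BorelSpace X] {K : Set X} (hK : IsCompact K) (hc : IsConnected K)
    (p : ι → X) (hp : ∀ i, p i ∈ K) (L : ℝ) (hL0 : 0 ≤ L)
    (hL : μH[1] K ≤ ENNReal.ofReal L) (ε : ℝ) (hε : 0 < ε) :
    ∃ M : Set (Finset ι), Laminar M ∧ (∀ i, {i} ∈ M) ∧
      ∀ φ : ι → X → ℝ, (∀ A ∈ M, LipOn K φ A) → (∀ x ∈ K, ∑ i, φ i x = 0) →
        ∑ i, φ i (p i) ≤ L + ε := by
  classical
  set δ : ℝ := ε / (4 * (Fintype.card ι + 1)) with hδdef
  have hcard0 : (0 : ℝ) ≤ Fintype.card ι := Nat.cast_nonneg _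
  have hδ : 0 < δ := by positivity
  have hδε : (Fintype.card ι : ℝ) * δ ≤ ε / 4 := by
    rw [hδdef, mul_div_assoc', div_le_div_iff₀ (by positivity) (by norm_num)]
    nlinarith
  -- the cover
  have hr : (0 : ℝ≥0∞) < ENNReal.ofReal (δ / 2) := by
    rw [ENNReal.ofReal_pos]; positivity
  have h1 : ⨅ (t : ℕ → Set X) (_ : K ⊆ ⋃ n, t n) (_ : ∀ n, ediam (t n) ≤ ENNReal.ofReal (δ / 2)),
      ∑' n, ⨆ _ : (t n).Nonempty, ediam (t n) ^ (1 : ℝ) ≤ ENNReal.ofReal L := by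
    refine le_trans ?_ hL
    rw [Measure.hausdorffMeasure_apply]
    exact le_iSup₂ (f := fun (r : ℝ≥0∞) (_ : 0 < r) =>
      ⨅ (t : ℕ → Set X) (_ : K ⊆ ⋃ n, t n) (_ : ∀ n, ediam (t n) ≤ r),
        ∑' n, ⨆ _ : (t n).Nonempty, ediam (t n) ^ (1 : ℝ)) (ENNReal.ofReal (δ / 2)) hr
  have h2 : ENNReal.ofReal L < ENNReal.ofReal (L + ε / 4) := by
    rw [ENNReal.ofReal_lt_ofReal_iff (by linarith)]
    linarith
  have h3 := lt_of_le_of_lt h1 h2
  simp only [iInf_lt_iff] at h3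
  obtain ⟨t, htK, htd, hts⟩ := h3
  obtain ⟨e', he'0, he's⟩ := ENNReal.exists_pos_sum_of_countable
    (ε := ENNReal.ofReal (ε / 8)) (by rw [ENNReal.ofReal_ne_zero_iff]; positivity) ℕ
  let η : ℕ → ℝ≥0 := fun n => min (e' n) (Real.toNNReal (δ / 4))
  have hη0 : ∀ n, 0 < η n := fun n => lt_min (he'0 n) (by
    rw [Real.toNNReal_pos]; positivity)
  have hη1 : ∀ n, (η n : ℝ) ≤ δ / 4 := fun n => by
    have h : η n ≤ Real.toNNReal (δ / 4) := min_le_right _ _
    have h' : (η n : ℝ) ≤ (Real.toNNReal (δ / 4) : ℝ) := by exact_mod_cast h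
    rwa [Real.coe_toNNReal _ (by positivity)] at h'
  have hη2 : ∀ n, η n ≤ e' n := fun n => min_le_left _ _
  let Vn : ℕ → Set X := fun n => thickening (η n) (t n)
  have hVo : ∀ n, IsOpen (Vn n) := fun n => isOpen_thickening
  have htV : ∀ n, t n ⊆ Vn n := fun n => self_subset_thickening (by exact_mod_cast hη0 n) _
  have hVK : K ⊆ ⋃ n, Vn n := htK.trans (Set.iUnion_mono htV)
  have htfin : ∀ n, ediam (t n) ≠ ∞ := fun n => ne_top_of_le_ne_top ENNReal.ofReal_ne_top (htd n)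
  let w : ℕ → ℝ := fun n => (ediam (t n)).toReal + 2 * η n
  have hVd : ∀ n, ∀ x ∈ Vn n, ∀ y ∈ Vn n, dist x y ≤ w n := by
    intro n x hx y hy
    have h4 : edist x y ≤ ediam (t n) + 2 * η n :=
      (edist_le_ediam_of_mem hx hy).trans (ediam_thickening_le _)
    have h5 : ediam (t n) + 2 * η n ≠ ∞ :=
      ENNReal.add_ne_top.2 ⟨htfin n, by finiteness⟩
    have h6 := ENNReal.toReal_mono h5 h4
    rw [edist_dist, ENNReal.toReal_ofReal dist_nonneg, ENNReal.toReal_add (htfin n) (by finiteness)]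
      at h6
    simpa [w] using h6
  have hwδ : ∀ n, w n ≤ δ := by
    intro n
    have h4 : (ediam (t n)).toReal ≤ δ / 2 := ENNReal.toReal_le_of_le_ofReal (by positivity) (htd n)
    have h5 := hη1 n
    simp only [w]
    linarith
  obtain ⟨F, hF⟩ := hK.elim_finite_subcover Vn hVo hVK
  let F' : Finset ℕ := F.filter fun n => (Vn n ∩ K).Nonempty
  have hF' : ∀ x ∈ K, ∃ n ∈ F', x ∈ Vn n := by
    intro x hx
    obtain ⟨n, hn, hxn⟩ := Set.mem_iUnion₂.1 (hF hx)
    exact ⟨n, Finset.mem_filter.2 ⟨hn, ⟨x, hxn, hx⟩⟩, hxn⟩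
  -- total weight
  have hsum : ∑ n ∈ F', w n ≤ L + ε / 2 := by
    have h4 : ∑ n ∈ F', (ediam (t n)).toReal ≤ L + ε / 4 := by
      rw [← ENNReal.toReal_sum (fun n _ => htfin n)]
      apply ENNReal.toReal_le_of_le_ofReal (by positivity)
      refine le_trans ?_ hts.le
      refine le_trans ?_ (ENNReal.sum_le_tsum F')
      refine Finset.sum_le_sum fun n _ => ?_
      by_cases hne : (t n).Nonempty
      · rw [iSup_pos hne, ENNReal.rpow_one]
      · rw [Set.not_nonempty_iff_eq_empty] at hne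
        rw [hne, ediam_empty]
        exact zero_le
    have h5 : ∑ n ∈ F', (2 * (η n : ℝ)) ≤ ε / 4 := by
      rw [← Finset.mul_sum]
      have h6 : ∑ n ∈ F', (η n : ℝ) ≤ ε / 8 := by
        have h7 : (∑ n ∈ F', (η n : ℝ≥0∞)) ≤ ENNReal.ofReal (ε / 8) := by
          refine le_trans ?_ he's.le
          refine le_trans ?_ (ENNReal.sum_le_tsum F')
          exact Finset.sum_le_sum fun n _ => by exact_mod_cast hη2 n
        have h8 := ENNReal.toReal_le_of_le_ofReal (by positivity) h7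
        rw [ENNReal.toReal_sum (fun n _ => ENNReal.coe_ne_top)] at h8
        simpa using h8
      linarith
    simp only [w, Finset.sum_add_distrib]
    linarith
  -- the nerve graph
  let V : Type := ↥F'
  let G : SimpleGraph V :=
    { Adj := fun u v => u ≠ v ∧ (K ∩ (Vn u ∩ Vn v)).Nonempty
      symm := ⟨fun u v h => ⟨h.1.symm, by rw [Set.inter_comm (Vn v)]; exact h.2⟩⟩
      loopless := ⟨fun u h => h.1 rfl⟩ }
  obtain ⟨x0, hx0⟩ := hc.nonempty
  obtain ⟨n0, hn0, hxn0⟩ := hF' x0 hx0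
  have hG : G.Connected := by
    rw [SimpleGraph.connected_iff]
    refine ⟨?_, ⟨⟨n0, hn0⟩⟩⟩
    intro u v
    by_contra hnr
    let A : Set X := ⋃ z : {z : V // G.Reachable u z}, Vn (z : V)
    let B : Set X := ⋃ z : {z : V // ¬ G.Reachable u z}, Vn (z : V)
    have hA : IsOpen A := isOpen_iUnion fun _ => hVo _
    have hB : IsOpen B := isOpen_iUnion fun _ => hVo _
    have hcov : K ⊆ A ∪ B := by
      intro x hx
      obtain ⟨n, hn, hxn⟩ := hF' x hx
      by_cases hr : G.Reachable u ⟨n, hn⟩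
      · left; exact Set.mem_iUnion.2 ⟨⟨⟨n, hn⟩, hr⟩, hxn⟩
      · right; exact Set.mem_iUnion.2 ⟨⟨⟨n, hn⟩, hr⟩, hxn⟩
    have hneA : (K ∩ A).Nonempty := by
      obtain ⟨x, hx1, hx2⟩ := (Finset.mem_filter.1 u.2).2
      exact ⟨x, hx2, Set.mem_iUnion.2 ⟨⟨u, SimpleGraph.Reachable.refl u⟩, hx1⟩⟩
    have hneB : (K ∩ B).Nonempty := by
      obtain ⟨x, hx1, hx2⟩ := (Finset.mem_filter.1 v.2).2
      exact ⟨x, hx2, Set.mem_iUnion.2 ⟨⟨v, hnr⟩, hx1⟩⟩
    obtain ⟨x, hxK, hxA, hxB⟩ := hc.isPreconnected A B hA hB hcov hneA hneB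
    obtain ⟨⟨z1, hz1⟩, hxz1⟩ := Set.mem_iUnion.1 hxA
    obtain ⟨⟨z2, hz2⟩, hxz2⟩ := Set.mem_iUnion.1 hxB
    apply hz2
    have hadj : G.Adj z1 z2 := by
      refine ⟨?_, ⟨x, hxK, hxz1, hxz2⟩⟩
      rintro rfl
      exact hz2 hz1
    exact hz1.trans hadj.reachable
  -- points
  have hpt : ∀ v : V, ∃ x : K, (x : X) ∈ Vn v := by
    intro v
    obtain ⟨x, hx1, hx2⟩ := (Finset.mem_filter.1 v.2).2
    exact ⟨⟨x, hx2⟩, hx1⟩
  choose x hx using hpt
  have hlab : ∀ i, ∃ v : V, p i ∈ Vn v := by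
    intro i
    obtain ⟨n, hn, hpn⟩ := hF' (p i) (hp i)
    exact ⟨⟨n, hn⟩, hpn⟩
  choose a ha using hlab
  obtain ⟨M, hM1, hM2, hM3⟩ := peel (ι := ι) (X := K) δ (Fintype.card V) V rfl G hG
    (fun v => {x : K | (x : X) ∈ Vn v}) (fun v => w v)
    (fun v x hx y hy => hVd v x hx y hy) (fun v => hwδ v)
    (fun u v h => by
      obtain ⟨x, hxK, hx1, hx2⟩ := h.2
      exact ⟨⟨x, hxK⟩, hx1, hx2⟩) x hx a
  refine ⟨M ∪ Set.range (fun i : ι => ({i} : Finset ι)), ?_, fun i => Or.inr ⟨i, rfl⟩, ?_⟩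
  · intro A hA B hB
    rcases hA with hA | ⟨i, rfl⟩
    · rcases hB with hB | ⟨j, rfl⟩
      · exact hM1 A hA B hB
      · by_cases h : j ∈ A
        · right; left; simpa using h
        · right; right; simpa using h
    · by_cases h : i ∈ B
      · left; simpa using h
      · right; right; simpa using h
  · intro φ hφ h0
    have hind := hM3 (fun i y => φ i y)
      (fun A hA x y => hφ A (Or.inl hA) x x.2 y y.2) (fun x => h0 x x.2)
    have hs : ∀ i, φ i (p i) ≤ φ i (x (a i)) + δ := by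
      intro i
      have h4 := hφ {i} (Or.inr ⟨i, rfl⟩) (p i) (hp i) (x (a i)) (x (a i)).2
      simp only [Finset.sum_singleton] at h4
      have h5 := hVd (a i) (p i) (ha i) (x (a i)) (hx (a i))
      have h6 := hwδ (a i)
      linarith
    have h7 : ∑ i, φ i (p i) ≤ ∑ i, φ i (x (a i)) + Fintype.card ι * δ := by
      calc ∑ i, φ i (p i) ≤ ∑ i, (φ i (x (a i)) + δ) := Finset.sum_le_sum fun i _ => hs i
        _ = _ := by rw [Finset.sum_add_distrib, Finset.sum_const, nsmul_eq_mul, Finset.card_univ]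
    have h8 : ((Finset.univ.image a).card : ℝ) ≤ Fintype.card ι := by
      exact_mod_cast Finset.card_image_le
    have h9 : ((Finset.univ.image a).card : ℝ) * δ ≤ Fintype.card ι * δ :=
      mul_le_mul_of_nonneg_right h8 hδ.le
    have h10 : ∑ v : V, w (v : ℕ) = ∑ n ∈ F', w n := Finset.sum_coe_sort F' w
    rw [h10] at hind
    linarith

end Pool.Agent.Helper752
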