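import Mathlib
import Pool.Agent.Helper752.Nerve

set_option autoImplicit false

namespace Pool.Agent.Helper752

open scoped ENNReal NNReal
open MeasureTheory Metric

/-- The Euclidean plane. -/
abbrev E2 := EuclideanSpace ℝ (Fin 2)

theorem lin_le (c s : ℝ) (h : c ^ 2 + s ^ 2 ≤ 1) (x y : E2) :
    c * (x 0 - y 0) + s * (x 1 - y 1) ≤ dist x y := by
  rw [EuclideanSpace.dist_eq]
  apply Real.le_sqrt_of_sq_le
  simp only [Fin.sum_univ_two, Real.dist_eq, sq_abs]
  nlinarith [sq_nonneg (c * (x 1 - y 1) - s * (x 0 - y 0)), sq_nonneg (x 0 - y 0),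
    sq_nonneg (x 1 - y 1)]

/-- linear potentials -/
def lin {ι : Type*} (cx cy : ι → ℝ) : ι → E2 → ℝ := fun i x => cx i * x 0 + cy i * x 1

theorem lin_lipOn {ι : Type*} (K : Set E2) (cx cy : ι → ℝ) (A : Finset ι)
    (h : (∑ i ∈ A, cx i) ^ 2 + (∑ i ∈ A, cy i) ^ 2 ≤ 1) : LipOn K (lin cx cy) A := by
  intro x _ y _
  have h1 := lin_le _ _ h x y
  have h2 : ∑ i ∈ A, lin cx cy i x - ∑ i ∈ A, lin cx cy i y
      = (∑ i ∈ A, cx i) * (x 0 - y 0) + (∑ i ∈ A, cy i) * (x 1 - y 1) := by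
    simp only [lin, Finset.sum_add_distrib, ← Finset.sum_mul]
    ring
  rw [h2]
  exact h1

/-- The gap estimate: a set `W` of the laminar family separates a pair from a triple. -/
theorem gap {ι : Type*} [Fintype ι] [DecidableEq ι] {K : Set E2} {p : ι → E2} {B : ℝ}
    {M : Set (Finset ι)} (hM : Laminar M)
    (hB : ∀ φ : ι → E2 → ℝ, (∀ A ∈ M, LipOn K φ A) → (∀ x ∈ K, ∑ i, φ i x = 0) →
      ∑ i, φ i (p i) ≤ B)
    (W : Finset ι) (hW : W ∈ M) (a b c d e : ι) (ha : a ∈ W) (hb : b ∈ W) (hc : c ∉ W)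
    (hd : d ∉ W) (he : e ∉ W) (gx gy cx cy dx dy ex ey : ℝ)
    (hg : gx ^ 2 + gy ^ 2 ≤ 1) (h1 : cx ^ 2 + cy ^ 2 ≤ 1) (h2 : dx ^ 2 + dy ^ 2 ≤ 1)
    (h3 : ex ^ 2 + ey ^ 2 ≤ 1) (hsx : cx + dx + ex = 0) (hsy : cy + dy + ey = 0) :
    gx * (p a 0 - p b 0) + gy * (p a 1 - p b 1) + (cx * p c 0 + cy * p c 1)
      + (dx * p d 0 + dy * p d 1) + (ex * p e 0 + ey * p e 1) ≤ B := by
  let X : ι → ℝ := fun i => (if i = a then gx else 0) + (if i = b then -gx else 0)
    + (if i = c then cx else 0) + (if i = d then dx else 0) + (if i = e then ex else 0)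
  let Y : ι → ℝ := fun i => (if i = a then gy else 0) + (if i = b then -gy else 0)
    + (if i = c then cy else 0) + (if i = d then dy else 0) + (if i = e then ey else 0)
  have hX : ∀ A : Finset ι, ∑ i ∈ A, X i = (if a ∈ A then gx else 0) + (if b ∈ A then -gx else 0)
    + (if c ∈ A then cx else 0) + (if d ∈ A then dx else 0) + (if e ∈ A then ex else 0) := by
    intro A
    simp only [X, Finset.sum_add_distrib, Finset.sum_ite_eq']
  have hY : ∀ A : Finset ι, ∑ i ∈ A, Y i = (if a ∈ A then gy else 0) + (if b ∈ A then -gy else 0)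
    + (if c ∈ A then cy else 0) + (if d ∈ A then dy else 0) + (if e ∈ A then ey else 0) := by
    intro A
    simp only [Y, Finset.sum_add_distrib, Finset.sum_ite_eq']
  have key := hB (lin X Y) ?_ ?_
  · have hval : ∑ i, lin X Y i (p i) = gx * (p a 0 - p b 0) + gy * (p a 1 - p b 1)
        + (cx * p c 0 + cy * p c 1) + (dx * p d 0 + dy * p d 1) + (ex * p e 0 + ey * p e 1) := by
      simp only [lin, X, Y, add_mul, ite_mul, zero_mul, Finset.sum_add_distrib,
        Finset.sum_ite_eq', Finset.mem_univ, if_true]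
      ring
    rw [hval] at key
    exact key
  · intro A hA
    apply lin_lipOn
    rw [hX, hY]
    have hcases : (c ∉ A ∧ d ∉ A ∧ e ∉ A) ∨ (a ∉ A ∧ b ∉ A) ∨ (a ∈ A ∧ b ∈ A) := by
      rcases hM A hA W hW with h | h | h
      · left
        exact ⟨fun h' => hc (h h'), fun h' => hd (h h'), fun h' => he (h h')⟩
      · right; right
        exact ⟨h ha, h hb⟩
      · right; left
        exact ⟨fun h' => (Finset.disjoint_left.1 h h' ha), fun h' => (Finset.disjoint_left.1 h h' hb)⟩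
    have e1 : ex = -(cx + dx) := by linarith
    have e2 : ey = -(cy + dy) := by linarith
    rcases hcases with ⟨h4, h5, h6⟩ | ⟨h4, h5⟩ | ⟨h4, h5⟩
    · rw [if_neg h4, if_neg h5, if_neg h6, if_neg h4, if_neg h5, if_neg h6]
      split_ifs <;> nlinarith
    · rw [if_neg h4, if_neg h5, if_neg h4, if_neg h5]
      subst e1 e2
      split_ifs <;> nlinarith
    · rw [if_pos h4, if_pos h5, if_pos h4, if_pos h5]
      subst e1 e2
      split_ifs <;> nlinarith
  · intro x _
    have h4 : ∑ i, lin X Y i x = (∑ i, X i) * x 0 + (∑ i, Y i) * x 1 := by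
      simp only [lin, Finset.sum_add_distrib, ← Finset.sum_mul]
    rw [h4, hX, hY]
    simp only [Finset.mem_univ, if_true]
    have e1 : ex = -(cx + dx) := by linarith
    have e2 : ey = -(cy + dy) := by linarith
    subst e1 e2
    ring

end Pool.Agent.Helper752
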