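import Mathlib
import Pool.Agent.Helper752.SquareLower

set_option autoImplicit false

namespace Pool.Agent.Helper752.Hull

open Pool.Agent.Helper752

/-- Certificate trees. -/
inductive Cert where
  | leaf (c : List (Int × Int)) : Cert
  | pat (U X : Nat) (a b : Cert) : Cert
  | mem (i l : Nat) (a b : Cert) : Cert
  | phi (i p q : Nat) (a b : Cert) : Cert
  | bad (i j : Nat) : Cert
  | bad2 (i j : Nat) : Cert

/-- States: known present partial splits, known absent patterns, thresholds. -/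
structure St where
  pres : List (Nat × Nat)
  abst : List (Nat × Nat)
  tt : List (Nat × Nat)
  ss : List (Nat × Nat)

/-- Is the label set coded by `k` compatible with the state? -/
def allowed (pres abst : List (Nat × Nat)) (k : Nat) : Bool :=
  pres.all (fun p => (k &&& p.1 == 0) || (k &&& p.2 == 0) || ((255 ^^^ k) &&& p.1 == 0)
    || ((255 ^^^ k) &&& p.2 == 0)) &&
  abst.all (fun a => !(k &&& a.1 == a.2) && !(k &&& a.1 == a.1 ^^^ a.2))

/-- Check the norm bound for all subsets. -/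
def walk (pres abst : List (Nat × Nat)) : List (Nat × Int × Int) → Nat → Int → Int → Bool
  | [], k, x, y => !(allowed pres abst k) || decide (x * x + y * y ≤ 100000000)
  | (b, cx, cy) :: t, k, x, y =>
    walk pres abst t k x y && walk pres abst t (k + b) (x + cx) (y + cy)

/-- cone condition for a `t` label -/
def coneT (sx sy : Int) (th : Nat × Nat) (c : Int × Int) : Bool :=
  decide (0 ≤ sx * c.1) && decide (0 ≤ sy * c.2) && decide (sx * c.1 * th.2 ≤ sy * c.2 * th.1)

/-- cone condition for an `s` label -/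
def coneS (sx sy : Int) (th : Nat × Nat) (c : Int × Int) : Bool :=
  decide (0 ≤ sx * c.1) && decide (0 ≤ sy * c.2) && decide (sy * c.2 * th.1 ≤ sx * c.1 * th.2)

/-- Leaf check. -/
def leafOK (st : St) : List (Int × Int) → Bool
  | [c0, c1, c2, c3, c4, c5, c6, c7] =>
    match st.tt, st.ss with
    | [t0, t1, t2, t3], [s0, s1, s2, s3] =>
      coneT (-1) 1 t0 c0 && coneS (-1) 1 s0 c1 && coneT 1 1 t1 c2 && coneS 1 1 s1 c3 &&
      coneT 1 (-1) t2 c4 && coneS 1 (-1) s2 c5 && coneT (-1) (-1) t3 c6 && coneS (-1) (-1) s3 c7 &&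
      decide (c0.1 + c1.1 + c2.1 + c3.1 + c4.1 + c5.1 + c6.1 + c7.1 = 0) &&
      decide (c0.2 + c1.2 + c2.2 + c3.2 + c4.2 + c5.2 + c6.2 + c7.2 = 0) &&
      decide (54642 ≤ (-c0.1 + c0.2) + (-c1.1 + c1.2) + (c2.1 + c2.2) + (c3.1 + c3.2)
        + (c4.1 - c4.2) + (c5.1 - c5.2) + (-c6.1 - c6.2) + (-c7.1 - c7.2)) &&
      walk st.pres st.abst [(1, c0.1, c0.2), (2, c1.1, c1.2), (4, c2.1, c2.2), (8, c3.1, c3.2),
        (16, c4.1, c4.2), (32, c5.1, c5.2), (64, c6.1, c6.2), (128, c7.1, c7.2)] 0 0 0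
    | _, _ => false
  | _ => false

/-- The checker. -/
def check : Cert → St → Bool
  | .leaf c, st => leafOK st c
  | .pat U X a b, st =>
    check a { st with abst := (U, X) :: st.abst } &&
    check b { st with pres := (X, U ^^^ X) :: st.pres }
  | .mem i l a b, st =>
    match st.pres[i]? with
    | none => false
    | some p => decide (l < 8) && check a { st with pres := (p.1 ||| 2 ^ l, p.2) :: st.pres } &&
      check b { st with pres := (p.1, p.2 ||| 2 ^ l) :: st.pres }
  | .phi i p q a b, st => decide (i < 4) && decide (0 < p) && decide (0 < q) &&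
      check a { st with tt := st.tt.set i (p, q) } && check b { st with ss := st.ss.set i (p, q) }
  | .bad i j, st =>
    match st.pres[i]?, st.pres[j]? with
    | some p, some q => !(p.1 &&& q.1 &&& 255 == 0) && !(p.1 &&& q.2 &&& 255 == 0) &&
        !(p.2 &&& q.1 &&& 255 == 0) && !(p.2 &&& q.2 &&& 255 == 0)
    | _, _ => false
  | .bad2 i j, st =>
    match st.pres[i]?, st.abst[j]? with
    | some p, some a => decide (a.1 < 2 ^ 8) && ((p.1 ||| p.2) &&& a.1 == a.1) &&
        ((p.1 &&& a.1 == a.2) || (p.1 &&& a.1 == a.1 ^^^ a.2))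
    | _, _ => false

/-- The code of a set of labels. -/
def mask (S : Finset (Fin 8)) : Nat := ∑ i : Fin 8, if i ∈ S then 2 ^ (i : ℕ) else 0

theorem mask_aux : ∀ b0 b1 b2 b3 b4 b5 b6 b7 : Bool, ∀ j : Fin 8,
    Nat.testBit ((if b0 = true then 2 ^ 0 else 0) + (if b1 = true then 2 ^ 1 else 0)
      + (if b2 = true then 2 ^ 2 else 0) + (if b3 = true then 2 ^ 3 else 0)
      + (if b4 = true then 2 ^ 4 else 0) + (if b5 = true then 2 ^ 5 else 0)
      + (if b6 = true then 2 ^ 6 else 0) + (if b7 = true then 2 ^ 7 else 0)) j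
      = ![b0, b1, b2, b3, b4, b5, b6, b7] j := by
  decide +kernel

theorem mask_testBit (S : Finset (Fin 8)) (j : Fin 8) : (mask S).testBit j = decide (j ∈ S) := by
  have h := mask_aux (decide (0 ∈ S)) (decide (1 ∈ S)) (decide (2 ∈ S)) (decide (3 ∈ S))
    (decide (4 ∈ S)) (decide (5 ∈ S)) (decide (6 ∈ S)) (decide (7 ∈ S)) j
  have e : mask S = (if decide (0 ∈ S) = true then 2 ^ 0 else 0)
      + (if decide (1 ∈ S) = true then 2 ^ 1 else 0)
      + (if decide (2 ∈ S) = true then 2 ^ 2 else 0) + (if decide (3 ∈ S) = true then 2 ^ 3 else 0)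
      + (if decide (4 ∈ S) = true then 2 ^ 4 else 0) + (if decide (5 ∈ S) = true then 2 ^ 5 else 0)
      + (if decide (6 ∈ S) = true then 2 ^ 6 else 0)
      + (if decide (7 ∈ S) = true then 2 ^ 7 else 0) := by
    rw [mask, Fin.sum_univ_eight]
    simp
  rw [e, h]
  fin_cases j <;> rfl

theorem mask_lt (S : Finset (Fin 8)) : mask S < 2 ^ 8 := by
  have h : mask S ≤ ∑ i : Fin 8, 2 ^ (i : ℕ) := by
    refine Finset.sum_le_sum fun i _ => ?_
    split_ifs
    · exact le_rfl
    · exact Nat.zero_le _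
  refine lt_of_le_of_lt h ?_
  decide

theorem mask_testBit_ge (S : Finset (Fin 8)) (j : ℕ) (hj : 8 ≤ j) :
    (mask S).testBit j = false := by
  apply Nat.testBit_lt_two_pow
  exact lt_of_lt_of_le (mask_lt S) (Nat.pow_le_pow_right (by norm_num) hj)

/-- `x ⊆ S` -/
def Sub (x : Nat) (S : Finset (Fin 8)) : Prop := ∀ i : Fin 8, x.testBit i = true → i ∈ S
/-- `x ∩ S = ∅` -/
def Dis (x : Nat) (S : Finset (Fin 8)) : Prop := ∀ i : Fin 8, x.testBit i = true → i ∉ S

/-- The partial split `(x, y)` is present. -/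
def PresP (M : Set (Finset (Fin 8))) (p : Nat × Nat) : Prop :=
  ∃ S ∈ M, (Sub p.1 S ∧ Dis p.2 S) ∨ (Sub p.2 S ∧ Dis p.1 S)

/-- The pattern is absent. -/
def AbsP (M : Set (Finset (Fin 8))) (a : Nat × Nat) : Prop :=
  ∀ S ∈ M, mask S &&& a.1 ≠ a.2 ∧ mask S &&& a.1 ≠ a.1 ^^^ a.2

theorem exists_of_and_ne (S : Finset (Fin 8)) (x : Nat) (h : mask S &&& x ≠ 0) :
    ∃ i : Fin 8, i ∈ S ∧ x.testBit i = true := by
  obtain ⟨i, hi⟩ := Nat.exists_testBit_of_ne_zero h
  rw [Nat.testBit_and, Bool.and_eq_true] at hi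
  by_cases h8 : i < 8
  · refine ⟨⟨i, h8⟩, ?_, hi.2⟩
    have := mask_testBit S ⟨i, h8⟩
    simp only at this
    rw [hi.1] at this
    simpa using this.symm
  · rw [mask_testBit_ge S i (by omega)] at hi
    simp at hi

theorem exists_of_xor_and_ne (S : Finset (Fin 8)) (x : Nat) (h : (255 ^^^ mask S) &&& x ≠ 0) :
    ∃ i : Fin 8, i ∉ S ∧ x.testBit i = true := by
  obtain ⟨i, hi⟩ := Nat.exists_testBit_of_ne_zero h
  rw [Nat.testBit_and, Bool.and_eq_true, Nat.testBit_xor] at hi
  by_cases h8 : i < 8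
  · refine ⟨⟨i, h8⟩, ?_, hi.2⟩
    have h1 := mask_testBit S ⟨i, h8⟩
    simp only at h1
    have h2 : Nat.testBit 255 i = true := by
      interval_cases i <;> decide
    rw [h1, h2] at hi
    simpa using hi.1
  · have h2 : Nat.testBit 255 i = false := by
      apply Nat.testBit_lt_two_pow
      exact lt_of_lt_of_le (by norm_num) (Nat.pow_le_pow_right (by norm_num) (show 8 ≤ i by omega))
    rw [mask_testBit_ge S i (by omega), h2] at hi
    simp at hi

theorem allowed_of {M : Set (Finset (Fin 8))} (hM : Laminar M) (pres abst : List (Nat × Nat))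
    (hp : ∀ p ∈ pres, PresP M p) (ha : ∀ a ∈ abst, AbsP M a) (S : Finset (Fin 8)) (hS : S ∈ M) :
    allowed pres abst (mask S) = true := by
  unfold allowed
  rw [Bool.and_eq_true, List.all_eq_true, List.all_eq_true]
  constructor
  · intro p hpp
    by_contra hcon
    simp only [Bool.or_eq_true, beq_iff_eq, not_or] at hcon
    obtain ⟨⟨⟨h1, h2⟩, h3⟩, h4⟩ := hcon
    obtain ⟨i1, hi1, hj1⟩ := exists_of_and_ne S _ h1
    obtain ⟨i2, hi2, hj2⟩ := exists_of_and_ne S _ h2
    obtain ⟨i3, hi3, hj3⟩ := exists_of_xor_and_ne S _ h3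
    obtain ⟨i4, hi4, hj4⟩ := exists_of_xor_and_ne S _ h4
    obtain ⟨T, hT, hsub⟩ := hp p hpp
    rcases hsub with ⟨hs, hd⟩ | ⟨hs, hd⟩
    · rcases hM S hS T hT with h | h | h
      · exact hd i2 hj2 (h hi2)
      · exact hi3 (h (hs i3 hj3))
      · exact Finset.disjoint_left.1 h hi1 (hs i1 hj1)
    · rcases hM S hS T hT with h | h | h
      · exact hd i1 hj1 (h hi1)
      · exact hi4 (h (hs i4 hj4))
      · exact Finset.disjoint_left.1 h hi2 (hs i2 hj2)
  · intro a haa
    have := ha a haa S hS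
    simp only [Bool.and_eq_true, Bool.not_eq_true', beq_eq_false_iff_ne, ne_eq]
    exact this

end Pool.Agent.Helper752.Hull
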