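import Mathlib
import Pool.Agent.Helper752.HullCheck

set_option autoImplicit false
set_option maxRecDepth 100000

namespace Pool.Agent.Helper752.Hull

def cert0 : Cert :=
  (.bad 0 1)

def cert1 : Cert :=
  (.mem 0 1
  (.bad 0 2)
  (.leaf [(-4995,8658),(-6983,4028),(0,0),(9032,486),(0,0),(5901,-8068),(0,0),(-2955,-5104)]))

def cert2 : Cert :=
  (.bad 0 1)

def cert3 : Cert :=
  (.mem 0 3
  (.bad 0 2)
  (.leaf [(0,0),(-9041,482),(4995,8658),(6988,4031),(0,0),(2951,-5097),(0,0),(-5893,-8074)]))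

def cert4 : Cert :=
  (.pat 175 168
  (.phi 0 8 7
  (.pat 175 162
  (.pat 175 163
  (.leaf [(-4220,3693),(-3842,2216),(3626,6286),(4758,2745),(0,-1),(4180,-7220),(0,0),(-4502,-7719)])
  (.leaf [(-7116,7019),(0,0),(0,2970),(7081,4085),(0,0),(7116,-7019),(0,0),(-7081,-7055)]))
  (.leaf [(-7522,6582),(-5694,3285),(0,0),(9461,3223),(0,0),(7523,-6582),(0,0),(-3768,-6508)]))
  (.pat 175 162
  (.pat 175 170
  (.leaf [(-3617,6270),(-2194,1863),(4532,7856),(914,527),(0,-2),(5674,-8045),(0,0),(-5309,-8469)])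
  (.leaf [(-2638,4573),(-4143,3625),(3122,5412),(3951,2279),(0,-1),(4454,-7691),(0,0),(-4746,-8197)]))
  (.leaf [(-4995,8658),(-6372,5575),(0,0),(9422,304),(0,0),(5548,-8315),(0,0),(-3603,-6222)])))
  (.leaf [(0,0),(-8964,516),(4995,8658),(6944,4006),(0,0),(2985,-5155),(0,-1),(-5960,-8024)]))

def cert5 : Cert :=
  (.mem 0 3
  (.bad 0 2)
  (.phi 1 7 8
  (.leaf [(-7075,4097),(0,0),(4965,5675),(5807,3350),(0,0),(3710,-6408),(0,-2),(-7407,-6712)])
  (.leaf [(-6529,3780),(0,0),(3271,5670),(5242,5990),(0,0),(4571,-7894),(0,0),(-6555,-7546)])))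

def cert6 : Cert :=
  (.bad 0 1)

def cert7 : Cert :=
  (.mem 0 1
  (.bad 0 2)
  (.phi 0 7 8
  (.leaf [(-4965,5675),(-5807,3350),(7075,4097),(0,0),(0,0),(7407,-6712),(0,-2),(-3710,-6408)])
  (.leaf [(-3271,5670),(-5242,5990),(6529,3780),(0,0),(0,0),(6555,-7546),(0,0),(-4571,-7894)])))

def cert8 : Cert :=
  (.bad 0 1)

def cert9 : Cert :=
  (.mem 0 5
  (.leaf [(0,0),(-5920,8055),(0,1),(2964,5119),(4995,-8658),(6972,-4022),(0,0),(-9011,-495)])
  (.bad 0 2))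

def cert10 : Cert :=
  (.pat 187 146
  (.pat 187 144
  (.pat 187 178
  (.leaf [(-4995,8658),(0,0),(0,0),(7009,7127),(4995,-8658),(0,0),(0,0),(-7009,-7127)])
  (.leaf [(-4995,8659),(-6981,4027),(0,0),(9031,487),(4654,-8067),(1248,0),(0,0),(-2957,-5106)]))
  (.leaf [(0,3787),(-6541,3773),(0,0),(3276,5657),(4995,-8658),(6542,-3774),(0,0),(-8272,-785)]))
  (.leaf [(-4499,7799),(-7743,4467),(0,0),(1905,1855),(4499,-7799),(7743,-4467),(0,0),(-1905,-1855)]))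

def cert11 : Cert :=
  (.mem 0 5
  (.leaf [(-5856,8101),(0,0),(0,0),(2933,5066),(4995,-8658),(7010,-4044),(0,0),(-9082,-465)])
  (.bad 0 2))

def cert12 : Cert :=
  (.pat 190 146
  (.pat 174 134
  (.leaf [(0,0),(-8384,5284),(486,843),(7918,4568),(534,-927),(7844,-4525),(0,0),(-8398,-5243)])
  (.phi 1 7 8
  (.leaf [(0,0),(-9805,1939),(6582,7524),(3256,1878),(119,-207),(6414,-3700),(0,0),(-6566,-7434)])
  (.leaf [(0,0),(-9989,0),(4995,8658),(3352,3830),(15,-27),(6629,-3824),(0,0),(-5002,-8637)])))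
  (.leaf [(0,0),(-7076,7060),(994,7593),(0,0),(4995,-8658),(8658,-4995),(0,0),(-7571,-1000)]))

def cert13 : Cert :=
  (.pat 191 135
  (.pat 187 146
  (.pat 187 144
  (.pat 187 184
  (.pat 191 167
  (.leaf [(-4994,8657),(-7494,4323),(0,0),(9993,0),(4994,-8657),(4,0),(0,0),(-2503,-4323)])
  (.leaf [(-4995,8658),(-7489,4320),(0,0),(8659,4995),(0,-9990),(6332,-3653),(0,-1),(-2507,-4329)]))
  (.pat 189 184
  (.leaf [(-4815,8346),(-359,207),(3268,5665),(3122,1801),(4659,-8077),(666,-384),(0,0),(-6541,-7558)])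
  (.leaf [(0,0),(-9507,261),(4995,8659),(6544,3775),(3271,-5670),(3273,-1888),(0,0),(-8576,-5137)])))
  (.mem 0 2
  (.leaf [(0,0),(-9326,3602),(4995,8659),(1540,888),(4995,-8658),(7785,-4491),(0,0),(-9989,0)])
  (.mem 3 4
  (.mem 0 0
  (.phi 2 7 8
  (.leaf [(-4280,7420),(-2281,0),(138,240),(6386,3684),(6582,-7523),(3263,-1882),(0,0),(-9808,-1939)])
  (.leaf [(-4963,8603),(-37,0),(44,77),(6601,3808),(4995,-8658),(3351,-3829),(0,-1),(-9991,0)]))
  (.bad2 0 0))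
  (.bad 0 1))))
  (.leaf [(-4509,7816),(-7757,4474),(300,915),(1585,914),(4509,-7816),(7755,-4474),(0,0),(-1883,-1829)]))
  (.phi 1 8 7
  (.leaf [(-3833,6644),(0,0),(3830,3352),(8658,4995),(0,-9991),(0,0),(0,0),(-8655,-5000)])
  (.leaf [(-3751,6502),(-98,56),(1869,3240),(7523,6582),(1938,-9807),(0,0),(0,0),(-7481,-6573)])))

def cert14 : Cert :=
  (.pat 189 133
  (.pat 185 145
  (.leaf [(-8402,5262),(0,0),(483,838),(7924,4571),(492,-853),(7910,-4563),(0,0),(-8407,-5255)])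
  (.phi 2 7 8
  (.leaf [(-6565,7439),(0,0),(114,198),(6419,3703),(6582,-7523),(3256,-1878),(0,0),(-9806,-1939)])
  (.leaf [(-5000,8531),(0,0),(107,186),(6537,3771),(4995,-8658),(3352,-3830),(0,0),(-9991,0)])))
  (.leaf [(-5084,2944),(0,0),(4037,6998),(8658,4995),(474,-9059),(2,-1),(0,0),(-8087,-5877)]))

def cert15 : Cert :=
  (.mem 0 5
  (.leaf [(0,0),(-7063,7073),(999,7575),(0,0),(4995,-8658),(8658,-4995),(0,0),(-7589,-995)])
  (.bad 0 2))

def cert16 : Cert :=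
  (.pat 183 146
  (.pat 183 147
  (.pat 183 180
  (.phi 0 8 7
  (.leaf [(-6006,5256),(-5651,3260),(7882,4564),(0,0),(1876,-3254),(5689,-3281),(0,0),(-3790,-6545)])
  (.pat 183 144
  (.leaf [(-3365,5833),(-5653,4946),(6384,3696),(0,0),(0,-3488),(6743,-3890),(0,0),(-4109,-7097)])
  (.leaf [(-2696,4674),(-8659,4995),(7275,4212),(0,0),(4995,-8658),(8658,-4995),(0,0),(-9573,-228)])))
  (.leaf [(0,0),(-8658,4995),(7052,7084),(0,0),(0,0),(8658,-4995),(0,0),(-7052,-7084)]))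
  (.leaf [(-4473,7754),(-1835,0),(781,6734),(0,0),(4995,-8658),(8658,-4995),(0,0),(-8126,-835)]))
  (.leaf [(-4488,7780),(-7776,4486),(1871,1867),(0,0),(4488,-7780),(7776,-4486),(0,0),(-1871,-1867)]))

def cert17 : Cert :=
  (.mem 0 5
  (.leaf [(-7081,7055),(0,0),(992,7600),(0,0),(4995,-8658),(8658,-4995),(0,0),(-7564,-1002)])
  (.bad 0 2))

def cert18 : Cert :=
  (.bad 0 1)

def cert19 : Cert :=
  (.mem 0 1
  (.bad 0 2)
  (.leaf [(-4995,8658),(-6986,4030),(0,0),(9039,484),(5895,-8072),(0,0),(0,0),(-2953,-5100)]))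

def cert20 : Cert :=
  (.bad 0 1)

def cert21 : Cert :=
  (.mem 0 3
  (.bad 0 2)
  (.leaf [(0,0),(-7592,994),(4995,8658),(8658,4995),(1000,-7571),(0,0),(0,0),(-7061,-7076)]))

def cert22 : Cert :=
  (.pat 159 146
  (.pat 157 152
  (.leaf [(-4580,7939),(-820,473),(4549,7885),(880,507),(5244,-8407),(0,0),(0,0),(-5273,-8397)])
  (.phi 1 8 7
  (.leaf [(-3771,6537),(-186,107),(3830,3352),(8658,4995),(0,-9991),(0,0),(0,0),(-8531,-5000)])
  (.leaf [(-3703,6419),(-198,114),(1878,3256),(7523,6582),(1939,-9806),(0,0),(0,0),(-7439,-6565)])))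
  (.leaf [(-4995,8658),(-6939,4003),(0,0),(8955,520),(5968,-8019),(0,0),(0,0),(-2989,-5162)]))

def cert23 : Cert :=
  (.mem 0 3
  (.bad 0 2)
  (.leaf [(-5139,2976),(0,0),(4013,6956),(8658,4995),(507,-8985),(0,0),(0,0),(-8039,-5942)]))

def cert24 : Cert :=
  (.bad 0 1)

def cert25 : Cert :=
  (.mem 0 1
  (.bad 0 2)
  (.phi 0 8 7
  (.leaf [(-5981,5234),(-5682,3278),(7903,4576),(0,0),(7534,-6570),(0,0),(0,0),(-3774,-6518)])
  (.mem 2 0
  (.bad 0 1)
  (.mem 0 5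
  (.leaf [(-4692,8133),(-6635,5805),(2954,1711),(0,0),(1738,-9844),(9996,0),(0,0),(-3361,-5805)])
  (.mem 0 3
  (.leaf [(-4701,8149),(-6635,5805),(2911,1686),(9995,0),(1791,-9835),(0,0),(0,0),(-3361,-5805)])
  (.mem 3 6
  (.leaf [(-4060,7038),(-7430,6501),(5028,2911),(2,0),(8649,-5008),(0,0),(0,-7661),(-2189,-3781)])
  (.leaf [(-3349,5806),(-5675,4965),(6408,3710),(0,0),(6711,-7407),(1,0),(0,0),(-4096,-7074)])))))))

def cert26 : Cert :=
  (.bad 0 1)

def cert27 : Cert :=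
  (.mem 0 7
  (.leaf [(0,0),(-2964,5119),(0,1),(5921,8055),(0,0),(9010,-495),(-4995,-8658),(-6972,-4022)])
  (.bad 0 2))

def cert28 : Cert :=
  (.pat 235 131
  (.pat 171 130
  (.leaf [(-467,810),(-7948,4585),(0,0),(8380,5298),(0,0),(8405,-5229),(-549,-952),(-7821,-4512)])
  (.phi 0 7 8
  (.leaf [(-6582,7524),(-3256,1878),(0,0),(9805,1939),(0,0),(6566,-7434),(-119,-207),(-6414,-3700)])
  (.leaf [(-4995,8658),(-3352,3830),(0,0),(9989,0),(0,0),(5002,-8637),(0,-18),(-6644,-3833)])))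
  (.leaf [(-994,7593),(0,0),(0,0),(7076,7060),(0,0),(7571,-1000),(-4995,-8658),(-8658,-4995)]))

def cert29 : Cert :=
  (.mem 0 7
  (.leaf [(-995,7590),(0,0),(0,0),(7075,7062),(0,-1),(7573,-998),(-4995,-8658),(-8658,-4995)])
  (.bad 0 2))

def cert30 : Cert :=
  (.pat 238 134
  (.pat 238 232
  (.pat 238 142
  (.leaf [(0,0),(-7008,7127),(4995,8658),(0,0),(0,0),(7008,-7127),(-4995,-8658),(0,0)])
  (.leaf [(0,0),(-2951,5096),(0,4676),(5892,3399),(0,0),(9042,-482),(-4995,-8658),(-6988,-4031)]))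
  (.leaf [(0,0),(-8271,786),(4995,8658),(6541,3773),(0,0),(3276,-5658),(0,-3786),(-6541,-3773)]))
  (.leaf [(0,0),(-1905,1855),(4499,7799),(7743,4467),(0,0),(1905,-1855),(-4499,-7799),(-7743,-4467)]))

def cert31 : Cert :=
  (.pat 239 194
  (.pat 238 134
  (.pat 238 232
  (.pat 238 142
  (.pat 239 226
  (.pat 239 227
  (.leaf [(-828,1436),(-5960,3438),(4375,7910),(4332,2499),(0,0),(4335,-7483),(-3624,-6283),(-2630,-1517)])
  (.leaf [(-3295,5712),(-3079,1776),(0,8554),(5170,0),(0,0),(6519,-7577),(-4668,-8092),(-647,-373)]))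
  (.leaf [(-4995,8658),(-6544,3775),(0,0),(9507,262),(0,0),(8575,-5138),(-3270,-5669),(-3273,-1888)]))
  (.pat 239 226
  (.leaf [(-737,5403),(-1113,642),(476,4589),(5688,3281),(0,0),(8729,-614),(-4995,-8658),(-8048,-4643)])
  (.leaf [(-4993,8655),(-5001,2885),(0,0),(9996,0),(0,0),(9989,0),(-4995,-8658),(-4996,-2882)])))
  (.leaf [(0,0),(-8337,739),(4995,8658),(6592,3803),(0,0),(3241,-5598),(0,-3858),(-6491,-3744)]))
  (.leaf [(-784,1359),(-1285,425),(4556,7898),(7587,4376),(0,0),(2068,-1784),(-4556,-7898),(-7586,-4376)]))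
  (.phi 0 8 7
  (.leaf [(-3830,3352),(-8658,4995),(3799,6586),(101,58),(0,0),(8588,-5000),(0,-9991),(0,0)])
  (.leaf [(-1882,3263),(-7523,6582),(3681,6381),(245,141),(0,0),(7418,-6560),(-1939,-9807),(0,0)])))

def cert32 : Cert :=
  (.pat 237 133
  (.pat 237 141
  (.mem 1 2
  (.phi 1 7 8
  (.pat 237 129
  (.leaf [(-7131,4129),(0,0),(4917,5620),(5875,3389),(0,0),(3674,-6345),(0,-2562),(-7335,-4231)])
  (.leaf [(-235,9560),(0,0),(4995,8658),(4686,2703),(0,0),(4208,-7268),(-4995,-8658),(-8659,-4995)]))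
  (.leaf [(-6592,3817),(0,0),(3229,5597),(5293,6049),(0,0),(4541,-7843),(-3360,-5826),(-3111,-1794)]))
  (.leaf [(-7118,7018),(0,0),(4995,8658),(0,0),(0,0),(7117,-7018),(-4994,-8658),(0,0)]))
  (.leaf [(-834,8126),(0,0),(0,1835),(7754,4473),(0,0),(6734,-781),(-4995,-8658),(-8659,-4995)]))
  (.leaf [(-2040,1734),(0,0),(4577,7934),(7598,4383),(0,0),(2040,-1734),(-4577,-7934),(-7598,-4383)]))

def cert33 : Cert :=
  (.mem 0 7
  (.leaf [(0,0),(-2933,5066),(5856,8101),(0,0),(0,0),(9082,-465),(-4995,-8658),(-7010,-4044)])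
  (.bad 0 2))

def cert34 : Cert :=
  (.pat 231 194
  (.pat 230 130
  (.leaf [(-503,872),(-7892,4553),(8378,5283),(0,0),(0,0),(8390,-5249),(-543,-942),(-7830,-4517)])
  (.phi 3 7 8
  (.leaf [(-88,153),(-6457,3725),(6568,7458),(0,0),(0,0),(9808,-1939),(-6582,-7523),(-3249,-1874)])
  (.leaf [(-111,193),(-6533,3769),(5000,8526),(0,0),(0,0),(9991,0),(-4995,-8658),(-3352,-3830)])))
  (.leaf [(-4044,7010),(-8658,4995),(5066,2933),(0,0),(0,0),(8101,-5856),(-465,-9082),(0,0)]))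

def cert35 : Cert :=
  (.mem 0 7
  (.leaf [(-998,7577),(0,0),(7065,7072),(0,0),(0,0),(7586,-996),(-4995,-8658),(-8658,-4995)])
  (.bad 0 2))

def cert36 : Cert :=
  (.pat 250 138
  (.phi 2 8 7
  (.pat 250 208
  (.pat 250 192
  (.leaf [(0,1),(-4180,7220),(0,0),(4502,7719),(4220,-3693),(3842,-2216),(-3626,-6286),(-4758,-2745)])
  (.leaf [(0,1),(-7083,7053),(0,0),(7082,7055),(7082,-7053),(0,0),(-2569,-4453),(-4512,-2603)]))
  (.leaf [(0,0),(-7523,6582),(0,0),(3768,6508),(7522,-6582),(5694,-3285),(0,0),(-9461,-3223)]))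
  (.pat 250 208
  (.pat 250 170
  (.leaf [(0,0),(-5670,8027),(0,0),(5327,8458),(3564,-6178),(2258,-1946),(-4497,-7795),(-982,-566)])
  (.leaf [(0,0),(-4484,7743),(0,1),(4721,8154),(2569,-4453),(4229,-3700),(-3187,-5525),(-3848,-2220)]))
  (.leaf [(0,0),(-5606,8277),(0,0),(3628,6265),(4995,-8658),(6343,-5550),(0,0),(-9360,-334)])))
  (.leaf [(0,0),(-2985,5155),(0,1),(5960,8024),(0,0),(8964,-516),(-4995,-8658),(-6944,-4006)]))

def cert37 : Cert :=
  (.pat 251 131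
  (.pat 187 146
  (.pat 187 163
  (.pat 187 144
  (.pat 187 184
  (.pat 219 129
  (.pat 187 147
  (.pat 251 139
  (.leaf [(-4995,8658),(-7083,4085),(0,0),(7568,1001),(2568,-4456),(4511,-2602),(0,-5204),(-2569,-1482)])
  (.leaf [(-4995,8659),(-4995,2881),(0,1),(9989,0),(0,-1),(9995,0),(-4993,-8655),(-5001,-2885)]))
  (.leaf [(-4995,8658),(-3642,2101),(0,0),(3126,5398),(4995,-8658),(6758,-3898),(0,0),(-6242,-3601)]))
  (.leaf [(0,9990),(-5424,3129),(0,1),(9948,976),(4692,-8133),(0,0),(-558,-968),(-8658,-4995)]))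
  (.mem 2 6
  (.pat 251 203
  (.leaf [(0,5776),(-4996,2882),(0,0),(4261,7359),(4995,-8658),(4542,-2620),(0,0),(-8802,-4739)])
  (.leaf [(0,2839),(-7164,4133),(0,0),(7113,7022),(4022,-6972),(3142,0),(0,-7022),(-7113,0)]))
  (.leaf [(0,7220),(-3630,2094),(0,0),(8658,4995),(4502,-7804),(0,0),(-871,-1510),(-8659,-4995)])))
  (.leaf [(0,3786),(-6541,3773),(0,0),(3276,5658),(4995,-8659),(6541,-3773),(0,0),(-8271,-785)]))
  (.leaf [(-3694,6403),(-2500,1442),(0,0),(5008,8650),(0,-7007),(8095,-4670),(-1645,-2852),(-5264,-1966)]))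
  (.leaf [(-4428,7677),(-7828,4516),(0,0),(1840,1980),(4428,-7676),(7829,-4516),(-794,-1377),(-1047,-604)]))
  (.phi 3 8 7
  (.leaf [(0,9991),(0,0),(0,0),(8655,5000),(3833,-6644),(0,0),(-3830,-3352),(-8658,-4995)])
  (.leaf [(-1937,9806),(0,0),(0,0),(7431,6563),(3696,-6407),(212,-122),(-1879,-3258),(-7523,-6582)])))

def cert38 : Cert :=
  (.pat 249 208
  (.pat 217 137
  (.leaf [(-5304,8380),(0,0),(0,0),(5221,8409),(4507,-7813),(961,-554),(-4596,-7967),(-789,-455)])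
  (.pat 249 209
  (.leaf [(-1001,7567),(0,0),(0,0),(7057,7079),(0,0),(7597,-993),(-4995,-8658),(-8658,-4995)])
  (.leaf [(0,9995),(0,0),(0,0),(4335,7487),(2880,-4992),(4325,-2495),(-2886,-5003),(-8654,-4992)])))
  (.leaf [(-5885,8080),(0,0),(0,0),(2947,5090),(4995,-8658),(6993,-4034),(0,0),(-9050,-478)]))

def cert39 : Cert :=
  (.pat 254 210
  (.pat 238 134
  (.pat 238 232
  (.pat 238 192
  (.pat 254 218
  (.leaf [(0,0),(-2503,4323),(4994,8657),(4,0),(0,0),(9993,0),(-4994,-8657),(-7494,-4323)])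
  (.leaf [(0,0),(-2507,4329),(0,9991),(6332,3653),(0,0),(8659,-4995),(-4995,-8658),(-7489,-4320)]))
  (.pat 126 80
  (.leaf [(0,0),(-6509,7587),(4674,8103),(637,367),(3310,-5738),(3056,-1763),(-4936,-8556),(-232,0)])
  (.leaf [(0,0),(-8576,5138),(3270,5669),(3273,1888),(4995,-8659),(6544,-3775),(0,0),(-9506,-261)])))
  (.pat 254 208
  (.leaf [(0,0),(-8792,54),(4995,8658),(8080,4661),(823,-4893),(1060,-611),(0,-4313),(-6166,-3556)])
  (.leaf [(0,0),(-9989,0),(4995,8658),(4996,2882),(4993,-8655),(5001,-2885),(0,0),(-9996,0)])))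
  (.leaf [(0,0),(-2068,1784),(4556,7898),(7586,4376),(222,-718),(1846,-1065),(-4556,-7899),(-7586,-4376)]))
  (.phi 2 8 7
  (.leaf [(0,0),(-8588,5000),(0,9991),(0,0),(3830,-3352),(8658,-4995),(-3799,-6586),(-101,-58)])
  (.leaf [(0,0),(-7439,6565),(1939,9806),(0,0),(1878,-3256),(7523,-6582),(-3703,-6419),(-198,-114)])))

def cert40 : Cert :=
  (.pat 255 135
  (.pat 255 210
  (.pat 255 248
  (.pat 255 143
  (.pat 255 173
  (.pat 127 90
  (.pat 119 83
  (.pat 255 194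
  (.pat 255 242
  (.pat 255 208
  (.pat 255 131
  (.pat 255 199
  (.leaf [(-2575,4464),(-4500,2596),(2625,4550),(4417,2543),(2575,-4464),(4500,-2596),(-2613,-4538),(-4429,-2555)])
  (.leaf [(-1887,3271),(-5670,3271),(3775,6544),(8659,4995),(261,-9507),(0,0),(-3363,-7550),(-1775,-1024)]))
  (.leaf [(-493,9017),(0,0),(4995,8658),(0,0),(1722,-2985),(6339,-2926),(-3905,-6769),(-8658,-4995)]))
  (.leaf [(-1494,2590),(-7137,2449),(4076,7067),(1786,1030),(4995,-8658),(7625,-4399),(0,0),(-9851,-79)]))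
  (.leaf [(-4995,8660),(-6899,3980),(0,0),(9693,164),(1135,-1968),(6899,-3980),(-3018,-5232),(-2815,-1624)]))
  (.phi 0 8 7
  (.leaf [(-3830,3352),(-8658,4995),(3833,6644),(0,0),(0,-5000),(8655,0),(0,-9991),(0,0)])
  (.leaf [(-1878,3256),(-7523,6582),(3704,6421),(198,114),(0,-6565),(7438,0),(-1939,-9808),(0,0)])))
  (.mem 0 7
  (.mem 2 5
  (.pat 119 116
  (.leaf [(-4712,8170),(-7127,1621),(1338,5030),(0,0),(4713,-8170),(8658,-4995),(0,-1),(-2870,-1655)])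
  (.phi 2 8 7
  (.leaf [(-2885,5001),(-5770,0),(0,9990),(0,0),(3830,-3352),(8658,-4995),(-3833,-6644),(0,0)])
  (.leaf [(-3786,6563),(-3641,0),(1937,9804),(2,1),(1881,-3261),(7523,-6581),(-3690,-6396),(-226,-130)])))
  (.bad 0 1))
  (.leaf [(-3518,9359),(0,0),(0,9989),(0,0),(4458,-7728),(8658,-4995),(-940,-1630),(-8658,-4995)])))
  (.leaf [(-4995,8658),(-7501,4327),(0,0),(3828,2006),(2505,-5673),(8658,-4995),(-2493,-4322),(-2,-1)]))
  (.leaf [(-2690,5780),(-8658,4995),(446,2937),(2217,1279),(4995,-8658),(7333,-4230),(-1,-2),(-3642,-2101)]))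
  (.pat 239 226
  (.leaf [(-730,5409),(-1124,648),(497,4584),(5679,3276),(0,0),(8714,-620),(-4995,-8658),(-8041,-4639)])
  (.leaf [(-4993,8655),(-5001,2885),(0,0),(9996,0),(0,0),(9989,0),(-4995,-8658),(-4996,-2882)])))
  (.pat 254 208
  (.leaf [(0,0),(-8791,54),(4995,8658),(8080,4661),(822,-4894),(1058,-610),(0,-4313),(-6164,-3556)])
  (.leaf [(0,0),(-9996,0),(4993,8655),(5001,2885),(4995,-8658),(4996,-2882),(0,0),(-9989,0)])))
  (.leaf [(-4510,7818),(-7676,4428),(275,869),(1708,985),(4509,-7817),(7677,-4428),(-275,-870),(-1708,-985)]))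
  (.leaf [(-275,870),(-1708,985),(4509,7817),(7677,4428),(275,-869),(1708,-985),(-4510,-7818),(-7676,-4428)]))

def cert41 : Cert :=
  (.pat 253 208
  (.pat 221 133
  (.pat 221 197
  (.pat 221 129
  (.pat 253 209
  (.pat 253 241
  (.leaf [(-7483,4335),(0,0),(2499,4332),(7910,4375),(3438,-5960),(1436,-828),(-1517,-2630),(-6283,-3624)])
  (.leaf [(-7567,6530),(0,0),(0,237),(8554,4935),(1789,-3101),(5688,-3281),(-378,-656),(-8086,-4664)]))
  (.leaf [(-5138,8575),(0,0),(262,9507),(0,0),(3775,-6544),(8658,-4995),(-1887,-3272),(-5670,-3271)]))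
  (.pat 253 209
  (.leaf [(-614,8729),(0,0),(3281,5688),(4589,476),(642,-1113),(5403,-737),(-4643,-8048),(-8658,-4995)])
  (.leaf [(0,9989),(0,0),(0,9996),(0,0),(2885,-5001),(8655,-4993),(-2882,-4996),(-8658,-4995)])))
  (.leaf [(-5598,3241),(0,0),(3803,6592),(8658,4995),(739,-8337),(0,0),(-3744,-6491),(-3858,0)]))
  (.leaf [(-1784,2068),(0,0),(4376,7586),(7899,4556),(1065,-1846),(718,-222),(-4376,-7586),(-7898,-4556)]))
  (.phi 2 7 8
  (.leaf [(-6559,7412),(0,0),(148,257),(6372,3676),(6582,-7523),(3264,-1883),(0,0),(-9807,-1939)])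
  (.leaf [(-5000,8588),(0,0),(58,101),(6586,3799),(4995,-8658),(3352,-3830),(0,0),(-9991,0)])))

def cert42 : Cert :=
  (.pat 246 134
  (.pat 118 80
  (.leaf [(0,0),(-5217,8409),(5309,8376),(0,0),(4597,-7969),(787,-453),(-4500,-7800),(-976,-563)])
  (.pat 246 130
  (.leaf [(0,0),(-7057,7079),(1001,7567),(0,0),(4995,-8658),(8658,-4995),(0,0),(-7597,-993)])
  (.leaf [(0,0),(-4335,7487),(0,9995),(0,0),(2886,-5003),(8654,-4992),(-2880,-4992),(-4325,-2495)])))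
  (.leaf [(0,0),(-2947,5090),(5885,8080),(0,0),(0,0),(9050,-478),(-4995,-8658),(-6993,-4034)]))

def cert43 : Cert :=
  (.pat 247 135
  (.pat 119 82
  (.pat 119 83
  (.pat 119 116
  (.pat 247 151
  (.leaf [(-4323,7494),(-8657,4994),(4323,2503),(0,0),(0,-3),(8657,-4994),(0,-9994),(0,0)])
  (.leaf [(-4320,7489),(-8658,4995),(4329,2507),(0,0),(3653,-6332),(9991,0),(-4995,-8659),(0,0)]))
  (.pat 246 130
  (.leaf [(0,232),(-8556,4936),(7587,6509),(0,0),(367,-637),(8103,-4674),(-1763,-3056),(-5738,-3310)])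
  (.leaf [(-261,9506),(0,0),(5138,8576),(0,0),(1888,-3273),(5669,-3270),(-3775,-6544),(-8659,-4995)])))
  (.pat 247 131
  (.leaf [(-3556,6166),(-4313,0),(54,8792),(0,0),(4661,-8080),(8658,-4995),(-611,-1060),(-4893,-823)])
  (.leaf [(0,9996),(0,0),(0,9989),(0,0),(2882,-4996),(8658,-4995),(-2885,-5001),(-8655,-4993)])))
  (.leaf [(-4376,7586),(-7899,4556),(1784,2068),(0,0),(4376,-7586),(7898,-4556),(-1065,-1846),(-718,-222)]))
  (.phi 3 7 8
  (.leaf [(-114,198),(-6419,3703),(6565,7439),(0,0),(0,0),(9806,-1939),(-6582,-7523),(-3256,-1878)])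
  (.leaf [(-58,101),(-6586,3799),(5000,8588),(0,0),(0,0),(9991,0),(-4995,-8658),(-3352,-3830)])))

def cert44 : Cert :=
  (.pat 245 133
  (.pat 117 80
  (.leaf [(-5201,8415),(0,0),(5324,8371),(0,0),(4615,-8000),(751,-433),(-4485,-7774),(-1004,-579)])
  (.phi 2 8 7
  (.leaf [(-8637,5002),(0,0),(0,9989),(0,0),(3830,-3352),(8658,-4995),(-3824,-6629),(-27,-15)])
  (.leaf [(-7434,6566),(0,0),(1939,9805),(0,0),(1878,-3256),(7524,-6582),(-3700,-6414),(-207,-119)])))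
  (.leaf [(-1000,7571),(0,0),(7060,7076),(0,0),(0,0),(7593,-994),(-4995,-8658),(-8658,-4995)]))

def cert45 : Cert :=
  (.mem 0 7
  (.phi 3 7 8
  (.leaf [(0,0),(-3710,6408),(0,2),(7407,6712),(7075,-4097),(0,0),(-4965,-5675),(-5807,-3350)])
  (.leaf [(0,2),(-4583,7915),(0,0),(6590,7516),(6503,-3765),(0,0),(-3288,-5700),(-5222,-5968)]))
  (.bad 0 2))

def cert46 : Cert :=
  (.pat 219 131
  (.pat 155 130
  (.leaf [(-594,1031),(-7750,4471),(0,0),(8410,5202),(8363,-5330),(0,0),(-442,-767),(-7987,-4607)])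
  (.phi 0 7 8
  (.leaf [(-6582,7523),(-3256,1878),(0,0),(9806,1939),(6565,-7439),(0,0),(-114,-198),(-6419,-3703)])
  (.leaf [(-4995,8658),(-3352,3830),(0,0),(9990,0),(5001,-8654),(0,0),(0,-1),(-6644,-3833)])))
  (.leaf [(-520,8955),(0,0),(0,0),(8019,5968),(5162,-2989),(0,0),(-4003,-6939),(-8658,-4995)]))

def cert47 : Cert :=
  (.mem 0 7
  (.leaf [(-484,9039),(0,0),(0,0),(8072,5895),(5100,-2953),(0,0),(-4030,-6986),(-8658,-4995)])
  (.bad 0 2))

def cert48 : Cert :=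
  (.pat 222 134
  (.pat 222 130
  (.pat 222 198
  (.leaf [(0,0),(-7114,7022),(0,1),(8658,4994),(7114,-7022),(0,0),(0,0),(-8658,-4995)])
  (.leaf [(0,0),(-7534,1010),(4995,8659),(8658,4995),(984,-7631),(0,0),(-4057,-7033),(-3046,0)]))
  (.phi 3 7 8
  (.pat 222 198
  (.leaf [(0,0),(-3696,6382),(0,2490),(7378,4256),(7098,-4110),(0,0),(-4945,-5652),(-5835,-3366)])
  (.leaf [(0,0),(-4240,7322),(4995,8658),(8659,4995),(180,-9663),(0,0),(-4995,-8659),(-4599,-2653)]))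
  (.leaf [(0,0),(-4564,7882),(3281,5689),(3254,1876),(6545,-3790),(0,0),(-3260,-5651),(-5256,-6006)])))
  (.leaf [(0,0),(-1867,1871),(4486,7776),(7780,4488),(1867,-1871),(0,0),(-4486,-7776),(-7780,-4488)]))

def cert49 : Cert :=
  (.pat 223 210
  (.pat 221 133
  (.pat 221 129
  (.pat 221 197
  (.pat 223 194
  (.pat 223 192
  (.leaf [(-3466,6008),(-1330,767),(1545,2678),(6235,3597),(7491,-4337),(0,0),(-2491,-4318),(-7984,-4395)])
  (.leaf [(-1801,3122),(-5665,3268),(384,666),(8077,4659),(7558,-6541),(0,0),(-207,-359),(-8346,-4815)]))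
  (.leaf [(-3775,6544),(-8659,4995),(1888,3273),(5670,3271),(5137,-8576),(0,0),(-261,-9507),(0,0)]))
  (.pat 223 194
  (.leaf [(-677,1174),(-5434,700),(4622,8012),(8659,4995),(646,-8649),(0,0),(-3255,-5642),(-4561,-590)])
  (.leaf [(-2885,5001),(-8655,4993),(2881,4995),(8659,4995),(0,-9989),(1,0),(0,-9995),(-1,0)])))
  (.leaf [(-764,8301),(0,0),(3760,6520),(3818,0),(5631,-3261),(0,0),(-3787,-6565),(-8658,-4995)]))
  (.leaf [(-914,1585),(-915,300),(4474,7755),(7816,4509),(1829,-1883),(0,0),(-4474,-7757),(-7816,-4509)]))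
  (.phi 0 7 8
  (.leaf [(-6582,7523),(-3240,1869),(0,0),(9807,1938),(6573,-7481),(0,0),(-56,-98),(-6502,-3751)])
  (.leaf [(-4995,8658),(-3352,3830),(0,0),(9991,0),(5000,-8655),(0,0),(0,0),(-6644,-3833)])))

def cert50 : Cert :=
  (.pat 221 133
  (.pat 221 197
  (.pat 221 129
  (.leaf [(-7127,7009),(0,0),(0,0),(8658,4995),(7127,-7009),(0,0),(0,0),(-8658,-4995)])
  (.leaf [(-478,9051),(0,0),(0,1222),(8081,4662),(5089,-2947),(0,0),(-4034,-6993),(-8658,-4995)]))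
  (.leaf [(-5657,3276),(0,0),(3774,6542),(8658,4995),(785,-8272),(0,0),(-3773,-6541),(-3787,0)]))
  (.leaf [(-1855,1905),(0,0),(4467,7743),(7799,4499),(1855,-1905),(0,0),(-4467,-7743),(-7799,-4499)]))

def cert51 : Cert :=
  (.mem 0 7
  (.phi 3 8 7
  (.leaf [(0,0),(-3786,6538),(7556,6544),(2,0),(7887,-4567),(0,0),(-5999,-5250),(-5660,-3265)])
  (.leaf [(0,0),(-4089,7062),(6694,7424),(0,0),(6422,-3718),(1,0),(-3341,-5792),(-5687,-4976)]))
  (.bad 0 2))

def cert52 : Cert :=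
  (.pat 215 131
  (.phi 0 7 8
  (.mem 0 7
  (.pat 215 212
  (.leaf [(-3700,4229),(-4453,2569),(8154,4721),(0,0),(7743,-4484),(1,0),(-2220,-3848),(-5525,-3187)])
  (.leaf [(-4582,8866),(0,0),(8650,5009),(0,0),(7280,-4215),(1,0),(-2691,-4665),(-8658,-4995)]))
  (.phi 0 8 7
  (.mem 0 1
  (.bad 0 3)
  (.pat 215 135
  (.leaf [(-6701,5864),(-8658,4995),(7121,4123),(0,0),(8439,-5357),(0,0),(-201,-9625),(0,0)])
  (.leaf [(-4835,4231),(-3816,2201),(8650,5009),(0,0),(7994,-4629),(3,0),(-1901,-3296),(-6095,-3516)])))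
  (.mem 0 1
  (.bad 0 3)
  (.pat 215 135
  (.leaf [(-5043,5764),(-7523,6582),(6981,4042),(0,0),(7523,-6583),(1,0),(-1939,-9805),(0,0)])
  (.leaf [(-3438,3930),(-3863,3380),(8298,4806),(0,0),(7557,-4376),(3,0),(-2424,-4202),(-6133,-3538)])))))
  (.pat 215 194
  (.pat 215 192
  (.leaf [(-2216,3842),(-3693,4220),(7719,4502),(1,0),(7220,-4180),(0,0),(-2745,-4758),(-6286,-3626)])
  (.leaf [(0,0),(-7019,7116),(7055,7081),(0,0),(7019,-7117),(0,0),(-2603,-4512),(-4452,-2568)]))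
  (.leaf [(-3285,5694),(-6582,7522),(6508,3768),(0,0),(6582,-7523),(0,0),(-3223,-9461),(0,0)])))
  (.leaf [(-516,8964),(0,0),(8024,5960),(0,0),(5155,-2985),(1,0),(-4006,-6944),(-8658,-4995)]))

def cert53 : Cert :=
  (.mem 0 7
  (.leaf [(-493,9017),(0,0),(8059,5914),(0,0),(5115,-2962),(0,0),(-4023,-6974),(-8658,-4995)])
  (.bad 0 2))

def cert54 : Cert :=
  (.bad 0 1)

def cert55 : Cert :=
  (.mem 0 1
  (.bad 0 2)
  (.leaf [(-4995,8658),(-8658,4995),(0,0),(7627,986),(0,0),(7035,-7101),(-1009,-7538),(0,0)]))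

def cert56 : Cert :=
  (.bad 0 1)

def cert57 : Cert :=
  (.mem 0 3
  (.bad 0 2)
  (.leaf [(0,0),(-8985,507),(4995,8658),(6956,4013),(0,0),(2976,-5139),(-5942,-8039),(0,0)]))

def cert58 : Cert :=
  (.pat 111 104
  (.pat 103 98
  (.leaf [(-4471,7750),(-1031,594),(4607,7987),(767,442),(0,0),(5330,-8363),(-5202,-8410),(0,0)])
  (.phi 0 8 7
  (.leaf [(-3830,3352),(-8658,4995),(3771,6537),(186,107),(0,-1),(8531,-5000),(0,-9990),(0,0)])
  (.leaf [(-1878,3256),(-7523,6582),(3703,6419),(198,114),(0,0),(7439,-6565),(-1939,-9806),(0,0)])))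
  (.leaf [(0,0),(-8955,520),(4995,8658),(6939,4003),(0,0),(2989,-5162),(-5968,-8019),(0,0)]))

def cert59 : Cert :=
  (.mem 0 3
  (.bad 0 2)
  (.phi 1 7 8
  (.leaf [(-7094,4108),(0,0),(4948,5655),(5830,3363),(0,0),(3698,-6386),(-7381,-6740),(-1,0)])
  (.leaf [(-6581,3811),(-1,0),(3236,5610),(5285,6039),(0,0),(4546,-7852),(-6485,-7608),(0,0)])))

def cert60 : Cert :=
  (.bad 0 1)

def cert61 : Cert :=
  (.mem 0 1
  (.bad 0 2)
  (.leaf [(-4044,7010),(-8658,4995),(5066,2933),(0,0),(0,0),(8101,-5856),(-465,-9082),(0,0)]))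

def cert62 : Cert :=
  (.bad 0 1)

def cert63 : Cert :=
  (.mem 0 5
  (.phi 2 7 8
  (.leaf [(0,0),(-7407,6712),(0,2),(3710,6408),(4965,-5675),(5807,-3350),(-7075,-4097),(0,0)])
  (.leaf [(0,0),(-6570,7533),(0,1),(4576,7903),(3278,-5682),(5234,-5981),(-6518,-3774),(0,0)]))
  (.bad 0 2))

def cert64 : Cert :=
  (.pat 123 82
  (.pat 123 66
  (.pat 123 83
  (.leaf [(0,0),(-8659,4995),(0,0),(7108,7029),(0,0),(8658,-4995),(-7107,-7029),(0,0)])
  (.phi 2 8 7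
  (.leaf [(-3743,6489),(-3861,0),(0,0),(3809,6579),(6037,-5283),(5612,-3237),(-7854,-4548),(0,0)])
  (.leaf [(-4255,7376),(-2491,0),(0,0),(4110,7099),(3366,-5835),(5652,-4945),(-6382,-3695),(0,0)])))
  (.leaf [(-4995,8659),(-8658,4995),(0,0),(8236,797),(4507,-7813),(1728,0),(-818,-6638),(0,0)]))
  (.leaf [(-4524,7842),(-7696,4440),(0,0),(1950,1817),(4524,-7842),(7696,-4440),(-1950,-1817),(0,0)]))

def cert65 : Cert :=
  (.mem 0 5
  (.phi 2 1 1
  (.leaf [(-7434,6682),(-1,0),(0,0),(3724,6432),(5434,-5434),(5781,-3335),(-7504,-4345),(0,0)])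
  (.mem 0 2
  (.mem 3 1
  (.mem 0 4
  (.mem 0 7
  (.mem 3 7
  (.leaf [(-6716,7405),(0,0),(0,0),(4358,7527),(3352,-5811),(5412,-5412),(-6406,-3709),(0,0)])
  (.leaf [(-5350,8443),(0,0),(0,0),(3813,6586),(4990,-8650),(6175,-6174),(-353,-205),(-9275,0)]))
  (.leaf [(-1738,9843),(0,0),(0,0),(3666,6331),(4692,-8133),(6330,-6330),(-2954,-1711),(-9996,0)]))
  (.bad 0 2))
  (.leaf [(-1645,9861),(-9995,0),(0,0),(3665,6330),(4676,-8106),(6330,-6330),(-3031,-1755),(0,0)]))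
  (.leaf [(-8649,5009),(-2,0),(0,7546),(2582,4459),(4051,-7022),(7068,-7068),(-5050,-2924),(0,0)])))
  (.bad 0 2))

def cert66 : Cert :=
  (.pat 126 82
  (.pat 110 70
  (.leaf [(0,0),(-8376,5309),(453,787),(7969,4597),(563,-976),(7800,-4500),(-8409,-5217),(0,0)])
  (.pat 126 80
  (.leaf [(0,0),(-7563,1002),(4995,8658),(8658,4995),(992,-7602),(0,0),(-7082,-7053),(0,0)])
  (.leaf [(0,0),(-9995,0),(4992,8654),(5003,2886),(2495,-4325),(4992,-2880),(-7487,-4335),(0,0)])))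
  (.leaf [(0,0),(-8080,5885),(478,9050),(0,0),(4034,-6993),(8658,-4995),(-5090,-2947),(0,0)]))

def cert67 : Cert :=
  (.pat 127 120
  (.pat 119 82
  (.pat 119 96
  (.pat 119 83
  (.pat 119 116
  (.pat 111 105
  (.pat 119 80
  (.pat 127 71
  (.leaf [(-4085,7083),(-8658,4995),(1482,2569),(5204,0),(2602,-4511),(4456,-2568),(-1001,-7568),(0,0)])
  (.leaf [(-2881,4995),(-8659,4995),(2885,5001),(8655,4993),(0,-9995),(1,0),(0,-9989),(-1,0)]))
  (.leaf [(-2101,3642),(-8658,4995),(3601,6242),(0,0),(3898,-6758),(8658,-4995),(-5398,-3126),(0,0)]))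
  (.leaf [(-3129,5424),(-9990,0),(4995,8658),(968,558),(0,0),(8133,-4692),(-976,-9948),(-1,0)]))
  (.mem 1 3
  (.pat 127 79
  (.leaf [(-2882,4996),(-5776,0),(4739,8802),(0,0),(2620,-4542),(8658,-4995),(-7359,-4261),(0,0)])
  (.leaf [(-2717,4710),(-4256,2455),(2648,4590),(4375,2524),(0,-7164),(6972,0),(-7022,-7115),(0,0)]))
  (.leaf [(-2094,3630),(-7220,0),(4995,8659),(1510,871),(0,0),(7804,-4502),(-4995,-8658),(0,0)])))
  (.leaf [(-3773,6541),(-3786,0),(785,8271),(0,0),(3773,-6541),(8659,-4995),(-5658,-3276),(0,0)]))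
  (.leaf [(-1442,2500),(-6403,3694),(1966,5264),(2852,1645),(4670,-8095),(7007,0),(-8650,-5008),(0,0)]))
  (.leaf [(-4516,7828),(-7676,4428),(848,1470),(1132,371),(4516,-7829),(7676,-4428),(-1980,-1840),(0,0)]))
  (.phi 1 7 8
  (.leaf [(0,0),(-9806,1937),(6582,7523),(3258,1879),(122,-212),(6407,-3696),(-6563,-7431),(0,0)])
  (.leaf [(0,0),(-9991,0),(4995,8658),(3352,3830),(0,0),(6644,-3833),(-5000,-8655),(0,0)])))

def cert68 : Cert :=
  (.pat 125 81
  (.phi 1 7 8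
  (.pat 125 69
  (.pat 125 85
  (.leaf [(-8458,5327),(0,0),(1946,2258),(6178,3564),(566,-982),(7795,-4497),(-8027,-5670),(0,0)])
  (.leaf [(-8154,4721),(0,0),(3700,4229),(4453,2569),(2220,-3848),(5525,-3187),(-7743,-4484),(-1,0)]))
  (.leaf [(-6262,3626),(0,0),(5551,6345),(8658,4995),(333,-9364),(0,0),(-8279,-5602),(-1,0)]))
  (.pat 125 69
  (.pat 125 77
  (.leaf [(-7728,4507),(-1,0),(2208,3828),(3704,4233),(2754,-4774),(6273,-3619),(-7210,-4175),(0,0)])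
  (.leaf [(-7055,7081),(-1,0),(0,0),(7135,7001),(4085,-7081),(2970,0),(-7134,-7001),(0,0)]))
  (.leaf [(-6508,3768),(0,0),(3285,5694),(6582,7522),(3223,-9461),(0,0),(-6582,-7523),(0,0)])))
  (.leaf [(-8024,5960),(0,0),(516,8964),(0,0),(4006,-6944),(8658,-4995),(-5155,-2985),(-1,0)]))

def cert69 : Cert :=
  (.mem 0 5
  (.leaf [(0,0),(-8101,5856),(465,9082),(0,0),(4044,-7010),(8658,-4995),(-5066,-2933),(0,0)])
  (.bad 0 2))

def cert70 : Cert :=
  (.pat 119 82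
  (.pat 119 66
  (.pat 119 83
  (.leaf [(0,0),(-8658,4995),(7127,7009),(0,0),(0,0),(8658,-4995),(-7127,-7009),(0,0)])
  (.leaf [(0,1222),(-8081,4662),(478,9051),(0,0),(4034,-6993),(8658,-4995),(-5089,-2947),(0,0)]))
  (.leaf [(-3774,6542),(-8658,4995),(5657,3276),(0,0),(3773,-6541),(3787,0),(-785,-8272),(0,0)]))
  (.leaf [(-4435,7688),(-7875,4543),(1779,1949),(0,0),(4435,-7688),(7875,-4543),(-1779,-1949),(0,0)]))

def cert71 : Cert :=
  (.mem 0 5
  (.leaf [(-8068,5901),(0,0),(486,9032),(0,0),(4028,-6983),(8658,-4995),(-5104,-2955),(0,0)])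
  (.bad 0 2))

def cert72 : Cert :=
  (.bad 0 1)

def cert73 : Cert :=
  (.mem 0 1
  (.bad 0 2)
  (.leaf [(-4995,8658),(-8658,4995),(0,0),(7585,996),(7066,-7069),(0,0),(-998,-7580),(0,0)]))

def cert74 : Cert :=
  (.bad 0 1)

def cert75 : Cert :=
  (.mem 0 3
  (.bad 0 2)
  (.leaf [(0,0),(-7575,999),(4995,8658),(8658,4995),(995,-7589),(0,0),(-7073,-7063),(0,0)]))

def cert76 : Cert :=
  (.pat 95 88
  (.pat 87 82
  (.leaf [(-4536,7863),(-905,522),(4519,7833),(938,541),(5262,-8382),(0,0),(-5278,-8377),(0,0)])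
  (.pat 127 71
  (.leaf [(-4492,7787),(-8658,4995),(746,1294),(3964,0),(4828,-4753),(3966,0),(-354,-9323),(0,0)])
  (.leaf [(-2882,4996),(-8658,4995),(2885,5001),(8655,4993),(0,-9996),(0,0),(0,-9989),(0,0)])))
  (.phi 1 1 1
  (.leaf [(0,0),(-9590,2605),(7068,7068),(8658,4995),(979,-7647),(0,0),(-7115,-7021),(0,0)])
  (.leaf [(0,0),(-7582,997),(4995,8658),(7068,7068),(2587,-9654),(0,0),(-7068,-7069),(0,0)])))

def cert77 : Cert :=
  (.mem 0 3
  (.bad 0 2)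
  (.leaf [(-5119,2964),(-1,0),(4022,6972),(8658,4995),(495,-9010),(0,0),(-8055,-5921),(0,0)]))

def cert78 : Cert :=
  (.bad 0 1)

def cert79 : Cert :=
  (.mem 0 1
  (.bad 0 2)
  (.leaf [(-4031,6988),(-8659,4995),(5097,2951),(0,0),(8074,-5893),(0,0),(-481,-9041),(0,0)]))

def cert80 : Cert :=
  (.bad 0 1)

/-- The certificates, one for each combination of types of the four corners. -/
def certs : List Cert :=
  [cert0, cert1, cert2, cert3, cert4, cert5, cert6, cert7, cert8, cert9, cert10, cert11, cert12, cert13, cert14, cert15, cert16, cert17, cert18, cert19, cert20, cert21, cert22, cert23, cert24, cert25, cert26, cert27, cert28, cert29, cert30, cert31, cert32, cert33, cert34, cert35, cert36, cert37, cert38, cert39, cert40, cert41, cert42, cert43, cert44, cert45, cert46, cert47, cert48, cert49, cert50, cert51, cert52, cert53, cert54, cert55, cert56, cert57, cert58, cert59, cert60, cert61, cert62, cert63,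 cert64, cert65, cert66, cert67, cert68, cert69, cert70, cert71, cert72, cert73, cert74, cert75, cert76, cert77, cert78, cert79, cert80]

/-- The label used for the horizontal tree at corner `i`. -/
def aLab (i : Nat) (t : Fin 3) : Nat := if t = 0 then 2 * i + 1 else 2 * i
/-- The label used for the vertical tree at corner `i`. -/
def bLab (i : Nat) (t : Fin 3) : Nat := if t = 2 then 2 * i else 2 * i + 1

/-- threshold of the `t` label -/
def thT : Fin 3 → Nat × Nat := ![(0, 1), (15, 26), (19, 11)]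
/-- threshold of the `s` label -/
def thS : Fin 3 → Nat × Nat := ![(11, 19), (26, 15), (1, 0)]

/-- The initial state. -/
def initSt (a b c d : Fin 3) : St where
  pres := [(2 ^ aLab 0 a ||| 2 ^ aLab 1 b, 2 ^ aLab 2 c ||| 2 ^ aLab 3 d),
    (2 ^ bLab 0 a ||| 2 ^ bLab 3 d, 2 ^ bLab 1 b ||| 2 ^ bLab 2 c)]
  abst := []
  tt := [thT a, thT b, thT c, thT d]
  ss := [thS a, thS b, thS c, thS d]

theorem all_ok : ∀ a b c d : Fin 3,
    check (certs.getD ((a : Nat) + 3 * b + 9 * c + 27 * d) (Cert.bad 0 0)) (initSt a b c d) = true := by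
  decide +kernel

end Pool.Agent.Helper752.Hull
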