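import Mathlib
import Pool.Agent.Helper752.HullCheck

set_option autoImplicit false

namespace Pool.Agent.Helper752.Hull

open Pool.Agent.Helper752

theorem walk_sound (pres abst : List (Nat × Nat)) :
    ∀ (L : List (Nat × Int × Int)) (k : Nat) (x y : Int), walk pres abst L k x y = true →
      ∀ sel : List Bool, sel.length = L.length →
        allowed pres abst (k + (List.zipWith (fun (s : Bool) (c : Nat × Int × Int) =>
          if s then c.1 else 0) sel L).sum) = true →
        (x + (List.zipWith (fun (s : Bool) (c : Nat × Int × Int) =>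
          if s then c.2.1 else 0) sel L).sum) ^ 2
        + (y + (List.zipWith (fun (s : Bool) (c : Nat × Int × Int) =>
          if s then c.2.2 else 0) sel L).sum) ^ 2 ≤ 100000000 := by
  intro L
  induction L with
  | nil =>
    intro k x y h sel hsel hal
    have hs : sel = [] := List.length_eq_zero_iff.1 (by simpa using hsel)
    subst hs
    simp only [List.zipWith_nil_left, List.sum_nil, add_zero] at hal ⊢
    simp only [walk, hal, Bool.not_true, Bool.false_or, decide_eq_true_eq] at h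
    nlinarith
  | cons c L ih =>
    intro k x y h sel hsel hal
    obtain ⟨b, cx, cy⟩ := c
    rw [walk, Bool.and_eq_true] at h
    cases sel with
    | nil => simp at hsel
    | cons s sel =>
      have hlen : sel.length = L.length := by simpa using hsel
      cases s with
      | false =>
        have := ih k x y h.1 sel hlen (by simpa using hal)
        simpa using this
      | true =>
        have := ih (k + b) (x + cx) (y + cy) h.2 sel hlen (by
          simpa [add_assoc] using hal)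
        simpa [add_assoc] using this

theorem walk8 (pres abst : List (Nat × Nat)) (c0 c1 c2 c3 c4 c5 c6 c7 : Int × Int)
    (h : walk pres abst [(1, c0.1, c0.2), (2, c1.1, c1.2), (4, c2.1, c2.2), (8, c3.1, c3.2),
        (16, c4.1, c4.2), (32, c5.1, c5.2), (64, c6.1, c6.2), (128, c7.1, c7.2)] 0 0 0 = true)
    (S : Finset (Fin 8)) (hal : allowed pres abst (mask S) = true) :
    (∑ i ∈ S, (![c0, c1, c2, c3, c4, c5, c6, c7] i).1) ^ 2
      + (∑ i ∈ S, (![c0, c1, c2, c3, c4, c5, c6, c7] i).2) ^ 2 ≤ 100000000 := by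
  have key := walk_sound pres abst _ 0 0 0 h [decide (0 ∈ S), decide (1 ∈ S), decide (2 ∈ S),
    decide (3 ∈ S), decide (4 ∈ S), decide (5 ∈ S), decide (6 ∈ S), decide (7 ∈ S)] rfl ?_
  · refine le_trans (le_of_eq ?_) key
    have h8 : ∀ f : Fin 8 → Int, ∑ i ∈ S, f i = ∑ i, if i ∈ S then f i else 0 := by
      intro f
      rw [Finset.sum_ite_mem]; simp
    rw [h8, h8, Fin.sum_univ_eight, Fin.sum_univ_eight]
    simp
    ring
  · rw [mask, Fin.sum_univ_eight] at hal
    refine Eq.trans ?_ hal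
    congr 1
    simp
    ring

/-- The geometric facts attached to the labels: `a l`, `b l` are the outward horizontal and vertical
excesses of the point with label `l` over its corner. -/
structure Facts (a b : Fin 8 → ℝ) (tt ss : List (Nat × Nat)) : Prop where
  lent : tt.length = 4
  lens : ss.length = 4
  tt : ∀ (i : Fin 4) (th : Nat × Nat), tt[(i : ℕ)]? = some th → 0 < th.2 ∧
    0 ≤ (th.1 : ℝ) * a ⟨2 * i, by omega⟩ + (th.2 : ℝ) * b ⟨2 * i, by omega⟩
  ss : ∀ (i : Fin 4) (th : Nat × Nat), ss[(i : ℕ)]? = some th → 0 < th.1 ∧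
    0 ≤ (th.1 : ℝ) * a ⟨2 * i + 1, by omega⟩ + (th.2 : ℝ) * b ⟨2 * i + 1, by omega⟩

theorem coneT_sound (sx sy : Int) (th : Nat × Nat) (c : Int × Int) (h : coneT sx sy th c = true)
    (a b : ℝ) (hb : 0 ≤ b) (hq : 0 < th.2) (hv : 0 ≤ (th.1 : ℝ) * a + (th.2 : ℝ) * b) :
    0 ≤ ((sx * c.1 : Int) : ℝ) * a + ((sy * c.2 : Int) : ℝ) * b := by
  simp only [coneT, Bool.and_eq_true, decide_eq_true_eq] at h
  obtain ⟨⟨h1, h2⟩, h3⟩ := h
  obtain ⟨p, q⟩ := th
  simp only at h3 hq hv
  have h1' : (0 : ℝ) ≤ ((sx * c.1 : Int) : ℝ) := by exact_mod_cast h1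
  have h2' : (0 : ℝ) ≤ ((sy * c.2 : Int) : ℝ) := by exact_mod_cast h2
  have h3' : ((sx * c.1 : Int) : ℝ) * q ≤ ((sy * c.2 : Int) : ℝ) * p := by exact_mod_cast h3
  set X : ℝ := ((sx * c.1 : Int) : ℝ)
  set Y : ℝ := ((sy * c.2 : Int) : ℝ)
  have hq' : (0 : ℝ) < q := by exact_mod_cast hq
  rcases Nat.eq_zero_or_pos p with hp | hp
  · subst hp
    have : X = 0 := by
      have : X * q ≤ 0 := by simpa using h3'
      nlinarith
    rw [this]
    have := mul_nonneg h2' hb
    linarith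
  · have hp' : (0 : ℝ) < p := by exact_mod_cast hp
    have h4 : 0 ≤ (p : ℝ) * (X * a + Y * b) := by
      have e : (p : ℝ) * (X * a + Y * b) = X * ((p : ℝ) * a + q * b) + (Y * p - X * q) * b := by ring
      rw [e]
      have := mul_nonneg h1' hv
      have := mul_nonneg (sub_nonneg.2 h3') hb
      linarith
    exact nonneg_of_mul_nonneg_right h4 hp'

theorem coneS_sound (sx sy : Int) (th : Nat × Nat) (c : Int × Int) (h : coneS sx sy th c = true)
    (a b : ℝ) (ha : 0 ≤ a) (hp : 0 < th.1) (hv : 0 ≤ (th.1 : ℝ) * a + (th.2 : ℝ) * b) :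
    0 ≤ ((sx * c.1 : Int) : ℝ) * a + ((sy * c.2 : Int) : ℝ) * b := by
  simp only [coneS, Bool.and_eq_true, decide_eq_true_eq] at h
  obtain ⟨⟨h1, h2⟩, h3⟩ := h
  obtain ⟨p, q⟩ := th
  simp only at h3 hp hv
  have h1' : (0 : ℝ) ≤ ((sx * c.1 : Int) : ℝ) := by exact_mod_cast h1
  have h2' : (0 : ℝ) ≤ ((sy * c.2 : Int) : ℝ) := by exact_mod_cast h2
  have h3' : ((sy * c.2 : Int) : ℝ) * p ≤ ((sx * c.1 : Int) : ℝ) * q := by exact_mod_cast h3
  set X : ℝ := ((sx * c.1 : Int) : ℝ)
  set Y : ℝ := ((sy * c.2 : Int) : ℝ)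
  have hp' : (0 : ℝ) < p := by exact_mod_cast hp
  rcases Nat.eq_zero_or_pos q with hq | hq
  · subst hq
    have : Y = 0 := by
      have : Y * p ≤ 0 := by simpa using h3'
      nlinarith
    rw [this]
    have := mul_nonneg h1' ha
    linarith
  · have hq' : (0 : ℝ) < q := by exact_mod_cast hq
    have h4 : 0 ≤ (q : ℝ) * (X * a + Y * b) := by
      have e : (q : ℝ) * (X * a + Y * b) = Y * ((p : ℝ) * a + q * b) + (X * q - Y * p) * a := by ring
      rw [e]
      have := mul_nonneg h2' hv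
      have := mul_nonneg (sub_nonneg.2 h3') ha
      linarith
    exact nonneg_of_mul_nonneg_right h4 hq'

/-- outward signs of the corners -/
def sgx : Fin 8 → Int := ![-1, -1, 1, 1, 1, 1, -1, -1]
/-- outward signs of the corners -/
def sgy : Fin 8 → Int := ![1, 1, 1, 1, -1, -1, -1, -1]

/-- horizontal excess -/
noncomputable def exa (p : Fin 8 → E2) (l : Fin 8) : ℝ := (sgx l : ℝ) * p l 0 - 1
/-- vertical excess -/
noncomputable def exb (p : Fin 8 → E2) (l : Fin 8) : ℝ := (sgy l : ℝ) * p l 1 - 1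

theorem leaf_sound {K : Set E2} {p : Fin 8 → E2} {B : ℝ} {M : Set (Finset (Fin 8))}
    (hM : Laminar M)
    (hB : ∀ φ : Fin 8 → E2 → ℝ, (∀ A ∈ M, LipOn K φ A) → (∀ x ∈ K, ∑ i, φ i x = 0) →
      ∑ i, φ i (p i) ≤ B)
    (hbt : ∀ i : Fin 4, 0 ≤ exb p ⟨2 * i, by omega⟩)
    (has : ∀ i : Fin 4, 0 ≤ exa p ⟨2 * i + 1, by omega⟩)
    (st : St) (hp : ∀ q ∈ st.pres, PresP M q) (ha : ∀ q ∈ st.abst, AbsP M q)
    (hf : Facts (exa p) (exb p) st.tt st.ss)
    (c : List (Int × Int)) (h : leafOK st c = true) : 5.4642 ≤ B := by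
  unfold leafOK at h
  split at h
  case h_2 => exact absurd h (by simp)
  case h_1 c0 c1 c2 c3 c4 c5 c6 c7 =>
    split at h
    case h_2 => exact absurd h (by simp)
    case h_1 tt ss t0 t1 t2 t3 s0 s1 s2 s3 htt hss =>
      simp only [Bool.and_eq_true, decide_eq_true_eq] at h
      obtain ⟨⟨⟨⟨⟨⟨⟨⟨⟨⟨⟨g0, g1⟩, g2⟩, g3⟩, g4⟩, g5⟩, g6⟩, g7⟩, hsx⟩, hsy⟩, hval⟩, hw⟩ := h
      have ft := hf.tt
      have fs := hf.ss
      rw [htt] at ft
      rw [hss] at fs
      have ft0 := ft 0 t0 rfl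
      have ft1 := ft 1 t1 rfl
      have ft2 := ft 2 t2 rfl
      have ft3 := ft 3 t3 rfl
      have fs0 := fs 0 s0 rfl
      have fs1 := fs 1 s1 rfl
      have fs2 := fs 2 s2 rfl
      have fs3 := fs 3 s3 rfl
      have hb0 := hbt 0
      have hb1 := hbt 1
      have hb2 := hbt 2
      have hb3 := hbt 3
      have ha0 := has 0
      have ha1 := has 1
      have ha2 := has 2
      have ha3 := has 3
      have v0 := coneT_sound _ _ _ _ g0 _ _ hb0 ft0.1 ft0.2
      have v2 := coneT_sound _ _ _ _ g2 _ _ hb1 ft1.1 ft1.2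
      have v4 := coneT_sound _ _ _ _ g4 _ _ hb2 ft2.1 ft2.2
      have v6 := coneT_sound _ _ _ _ g6 _ _ hb3 ft3.1 ft3.2
      have v1 := coneS_sound _ _ _ _ g1 _ _ ha0 fs0.1 fs0.2
      have v3 := coneS_sound _ _ _ _ g3 _ _ ha1 fs1.1 fs1.2
      have v5 := coneS_sound _ _ _ _ g5 _ _ ha2 fs2.1 fs2.2
      have v7 := coneS_sound _ _ _ _ g7 _ _ ha3 fs3.1 fs3.2
      let cc : Fin 8 → Int × Int := ![c0, c1, c2, c3, c4, c5, c6, c7]
      have key := hB (lin (fun i => ((cc i).1 : ℝ) / 10000) (fun i => ((cc i).2 : ℝ) / 10000)) ?_ ?_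
      · simp only [lin, Fin.sum_univ_eight] at key
        simp [cc] at key
        simp [exa, exb, sgx, sgy] at v0 v1 v2 v3 v4 v5 v6 v7
        have hval' : (54642 : ℝ) ≤ (-(c0.1 : ℝ) + c0.2) + (-c1.1 + c1.2) + (c2.1 + c2.2)
          + (c3.1 + c3.2) + (c4.1 - c4.2) + (c5.1 - c5.2) + (-c6.1 - c6.2) + (-c7.1 - c7.2) := by
          exact_mod_cast hval
        have : (5.4642 : ℝ) = 54642 / 10000 := by norm_num
        rw [this]
        linarith
      · intro A hA
        apply lin_lipOn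
        have hal := allowed_of hM st.pres st.abst hp ha A hA
        have h8 := walk8 st.pres st.abst c0 c1 c2 c3 c4 c5 c6 c7 hw A hal
        have h8' : ((∑ i ∈ A, (cc i).1 : Int) : ℝ) ^ 2 + ((∑ i ∈ A, (cc i).2 : Int) : ℝ) ^ 2
            ≤ 100000000 := by exact_mod_cast h8
        rw [← Finset.sum_div, ← Finset.sum_div]
        push_cast at h8'
        rw [div_pow, div_pow, ← add_div, div_le_one (by norm_num)]
        linarith
      · intro x _
        have hsx' : (c0.1 : ℝ) + c1.1 + c2.1 + c3.1 + c4.1 + c5.1 + c6.1 + c7.1 = 0 := by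
          exact_mod_cast hsx
        have hsy' : (c0.2 : ℝ) + c1.2 + c2.2 + c3.2 + c4.2 + c5.2 + c6.2 + c7.2 = 0 := by
          exact_mod_cast hsy
        simp only [lin, Fin.sum_univ_eight]
        simp [cc]
        linear_combination (x 0 / 10000) * hsx' + (x 1 / 10000) * hsy'

end Pool.Agent.Helper752.Hull
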