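import Mathlib
import Pool.Agent.Helper752.HullSound

set_option autoImplicit false

namespace Pool.Agent.Helper752.Hull

open Pool.Agent.Helper752

theorem sub_dis_of_and (S : Finset (Fin 8)) (U X : Nat) (h : mask S &&& U = X) :
    Sub X S ∧ Dis (U ^^^ X) S := by
  constructor
  · intro i hi
    rw [← h, Nat.testBit_and, mask_testBit] at hi
    simp at hi
    exact hi.1
  · intro i hi
    rw [Nat.testBit_xor, ← h, Nat.testBit_and, mask_testBit] at hi
    intro hiS
    simp [hiS] at hi

theorem sub_dis_of_and' (S : Finset (Fin 8)) (U X : Nat) (h : mask S &&& U = U ^^^ X) :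
    Sub (U ^^^ X) S ∧ Dis X S := by
  constructor
  · intro i hi
    rw [← h, Nat.testBit_and, mask_testBit] at hi
    simp at hi
    exact hi.1
  · intro i hi hiS
    have h1 : (mask S &&& U).testBit i = (U ^^^ X).testBit i := by rw [h]
    rw [Nat.testBit_and, Nat.testBit_xor, mask_testBit, hi] at h1
    simp [hiS] at h1

theorem pres_mem {M : Set (Finset (Fin 8))} (p : Nat × Nat) (hp : PresP M p) (l : Nat)
    (hl : l < 8) : PresP M (p.1 ||| 2 ^ l, p.2) ∨ PresP M (p.1, p.2 ||| 2 ^ l) := by
  obtain ⟨S, hS, h⟩ := hp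
  have h2 : ∀ (x : Nat) (i : Fin 8), (x ||| 2 ^ l).testBit i = true →
      x.testBit i = true ∨ i = ⟨l, hl⟩ := by
    intro x i hi
    rw [Nat.testBit_or, Nat.testBit_two_pow] at hi
    simp at hi
    rcases hi with hi | hi
    · left; exact hi
    · right; exact Fin.ext hi.symm
  by_cases hlS : (⟨l, hl⟩ : Fin 8) ∈ S
  · rcases h with ⟨hs, hd⟩ | ⟨hs, hd⟩
    · left
      refine ⟨S, hS, Or.inl ⟨?_, hd⟩⟩
      intro i hi
      rcases h2 _ i hi with h3 | h3
      · exact hs i h3
      · rw [h3]; exact hlS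
    · right
      refine ⟨S, hS, Or.inr ⟨?_, hd⟩⟩
      intro i hi
      rcases h2 _ i hi with h3 | h3
      · exact hs i h3
      · rw [h3]; exact hlS
  · rcases h with ⟨hs, hd⟩ | ⟨hs, hd⟩
    · right
      refine ⟨S, hS, Or.inl ⟨hs, ?_⟩⟩
      intro i hi
      rcases h2 _ i hi with h3 | h3
      · exact hd i h3
      · rw [h3]; exact hlS
    · left
      refine ⟨S, hS, Or.inr ⟨hs, ?_⟩⟩
      intro i hi
      rcases h2 _ i hi with h3 | h3
      · exact hd i h3
      · rw [h3]; exact hlS

theorem exists_bit (x y : Nat) (h : x &&& y &&& 255 ≠ 0) :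
    ∃ i : Fin 8, x.testBit i = true ∧ y.testBit i = true := by
  obtain ⟨i, hi⟩ := Nat.exists_testBit_of_ne_zero h
  rw [Nat.testBit_and, Nat.testBit_and, Bool.and_eq_true, Bool.and_eq_true] at hi
  by_cases h8 : i < 8
  · exact ⟨⟨i, h8⟩, hi.1.1, hi.1.2⟩
  · have h2 : Nat.testBit 255 i = false := by
      apply Nat.testBit_lt_two_pow
      exact lt_of_lt_of_le (by norm_num) (Nat.pow_le_pow_right (by norm_num) (show 8 ≤ i by omega))
    rw [h2] at hi
    simp at hi

theorem bad_false {M : Set (Finset (Fin 8))} (hM : Laminar M) (p q : Nat × Nat)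
    (hp : PresP M p) (hq : PresP M q) (h1 : p.1 &&& q.1 &&& 255 ≠ 0) (h2 : p.1 &&& q.2 &&& 255 ≠ 0)
    (h3 : p.2 &&& q.1 &&& 255 ≠ 0) (h4 : p.2 &&& q.2 &&& 255 ≠ 0) : False := by
  obtain ⟨S, hS, hs⟩ := hp
  obtain ⟨T, hT, ht⟩ := hq
  obtain ⟨i1, a1, b1⟩ := exists_bit _ _ h1
  obtain ⟨i2, a2, b2⟩ := exists_bit _ _ h2
  obtain ⟨i3, a3, b3⟩ := exists_bit _ _ h3
  obtain ⟨i4, a4, b4⟩ := exists_bit _ _ h4
  rcases hs with ⟨hs, hd⟩ | ⟨hs, hd⟩ <;> rcases ht with ⟨ks, kd⟩ | ⟨ks, kd⟩ <;>
    rcases hM S hS T hT with h | h | h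
  · exact kd i2 b2 (h (hs i2 a2))
  · exact hd i3 a3 (h (ks i3 b3))
  · exact Finset.disjoint_left.1 h (hs i1 a1) (ks i1 b1)
  · exact kd i1 b1 (h (hs i1 a1))
  · exact hd i4 a4 (h (ks i4 b4))
  · exact Finset.disjoint_left.1 h (hs i2 a2) (ks i2 b2)
  · exact kd i4 b4 (h (hs i4 a4))
  · exact hd i1 a1 (h (ks i1 b1))
  · exact Finset.disjoint_left.1 h (hs i3 a3) (ks i3 b3)
  · exact kd i3 b3 (h (hs i3 a3))
  · exact hd i2 a2 (h (ks i2 b2))
  · exact Finset.disjoint_left.1 h (hs i4 a4) (ks i4 b4)

theorem bad2_false {M : Set (Finset (Fin 8))} (p a : Nat × Nat) (hp : PresP M p) (ha : AbsP M a)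
    (hlt : a.1 < 2 ^ 8) (h1 : (p.1 ||| p.2) &&& a.1 = a.1)
    (h2 : p.1 &&& a.1 = a.2 ∨ p.1 &&& a.1 = a.1 ^^^ a.2) : False := by
  obtain ⟨S, hS, hs⟩ := hp
  obtain ⟨n1, n2⟩ := ha S hS
  have hU : ∀ i, a.1.testBit i = true → p.1.testBit i = true ∨ p.2.testBit i = true := by
    intro i hi
    rw [← h1, Nat.testBit_and, Nat.testBit_or] at hi
    simp at hi
    exact hi.1
  have hge : ∀ i, 8 ≤ i → a.1.testBit i = false := by
    intro i hi
    apply Nat.testBit_lt_two_pow
    exact lt_of_lt_of_le hlt (Nat.pow_le_pow_right (by norm_num) hi)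
  rcases hs with ⟨hs, hd⟩ | ⟨hs, hd⟩
  · have e : mask S &&& a.1 = p.1 &&& a.1 := by
      apply Nat.eq_of_testBit_eq
      intro i
      rw [Nat.testBit_and, Nat.testBit_and]
      by_cases h8 : i < 8
      · by_cases hUi : a.1.testBit i = true
        · rw [hUi, Bool.and_true, Bool.and_true]
          have hm := mask_testBit S ⟨i, h8⟩
          simp only at hm
          rw [hm]
          by_cases hpi : p.1.testBit i = true
          · rw [hpi]; simpa using hs ⟨i, h8⟩ hpi
          · have h4 : p.2.testBit i = true := (hU i hUi).resolve_left hpi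
            have h5 := hd ⟨i, h8⟩ h4
            simp only [Bool.not_eq_true] at hpi
            rw [hpi]; simpa using h5
        · simp only [Bool.not_eq_true] at hUi
          rw [hUi, Bool.and_false, Bool.and_false]
      · rw [hge i (by omega), Bool.and_false, Bool.and_false]
    rcases h2 with h2 | h2
    · exact n1 (e.trans h2)
    · exact n2 (e.trans h2)
  · have e : mask S &&& a.1 = a.1 ^^^ (p.1 &&& a.1) := by
      apply Nat.eq_of_testBit_eq
      intro i
      rw [Nat.testBit_and, Nat.testBit_xor, Nat.testBit_and]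
      by_cases h8 : i < 8
      · by_cases hUi : a.1.testBit i = true
        · rw [hUi, Bool.and_true, Bool.and_true]
          have hm := mask_testBit S ⟨i, h8⟩
          simp only at hm
          rw [hm]
          by_cases hpi : p.1.testBit i = true
          · rw [hpi]; simpa using hd ⟨i, h8⟩ hpi
          · have h4 : p.2.testBit i = true := (hU i hUi).resolve_left hpi
            have h5 := hs ⟨i, h8⟩ h4
            simp only [Bool.not_eq_true] at hpi
            rw [hpi]; simpa using h5
        · simp only [Bool.not_eq_true] at hUi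
          rw [hUi, Bool.and_false, Bool.and_false]; rfl
      · rw [hge i (by omega), Bool.and_false, Bool.and_false]; rfl
    rcases h2 with h2 | h2
    · rw [h2] at e; exact n2 e
    · rw [h2, ← Nat.xor_assoc, Nat.xor_self, Nat.zero_xor] at e; exact n1 e

theorem check_sound {K : Set E2} {p : Fin 8 → E2} {B : ℝ} {M : Set (Finset (Fin 8))}
    (hM : Laminar M)
    (hB : ∀ φ : Fin 8 → E2 → ℝ, (∀ A ∈ M, LipOn K φ A) → (∀ x ∈ K, ∑ i, φ i x = 0) →
      ∑ i, φ i (p i) ≤ B)
    (hbt : ∀ i : Fin 4, 0 ≤ exb p ⟨2 * i, by omega⟩)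
    (has : ∀ i : Fin 4, 0 ≤ exa p ⟨2 * i + 1, by omega⟩)
    (hdich : ∀ (i : Fin 4) (P Q : ℝ), 0 ≤ P → 0 ≤ Q →
      0 ≤ P * exa p ⟨2 * i, by omega⟩ + Q * exb p ⟨2 * i, by omega⟩ ∨
      0 ≤ P * exa p ⟨2 * i + 1, by omega⟩ + Q * exb p ⟨2 * i + 1, by omega⟩) :
    ∀ (T : Cert) (st : St), (∀ q ∈ st.pres, PresP M q) → (∀ q ∈ st.abst, AbsP M q) →
      Facts (exa p) (exb p) st.tt st.ss → check T st = true → 5.4642 ≤ B := by
  intro T
  induction T with
  | leaf c =>
    intro st hp ha hf h
    exact leaf_sound hM hB hbt has st hp ha hf c h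
  | pat U X a b iha ihb =>
    intro st hp ha hf h
    simp only [check, Bool.and_eq_true] at h
    by_cases hex : ∃ S ∈ M, mask S &&& U = X ∨ mask S &&& U = U ^^^ X
    · refine ihb { st with pres := (X, U ^^^ X) :: st.pres } ?_ ha hf h.2
      intro q hq
      rcases List.mem_cons.1 hq with rfl | hq
      · obtain ⟨S, hS, h1 | h1⟩ := hex
        · exact ⟨S, hS, Or.inl (sub_dis_of_and S U X h1)⟩
        · exact ⟨S, hS, Or.inr (sub_dis_of_and' S U X h1)⟩
      · exact hp q hq
    · refine iha { st with abst := (U, X) :: st.abst } hp ?_ hf h.1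
      intro q hq
      rcases List.mem_cons.1 hq with rfl | hq
      · intro S hS
        constructor
        · intro h1; exact hex ⟨S, hS, Or.inl h1⟩
        · intro h1; exact hex ⟨S, hS, Or.inr h1⟩
      · exact ha q hq
  | mem i l a b iha ihb =>
    intro st hp ha hf h
    simp only [check] at h
    split at h
    · exact absurd h (by simp)
    · next q hq =>
      simp only [Bool.and_eq_true, decide_eq_true_eq] at h
      obtain ⟨⟨hl, h1⟩, h2⟩ := h
      have hqm : q ∈ st.pres := List.mem_of_getElem? hq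
      rcases pres_mem q (hp q hqm) l hl with h3 | h3
      · refine iha { st with pres := (q.1 ||| 2 ^ l, q.2) :: st.pres } ?_ ha hf h1
        intro q' hq'
        rcases List.mem_cons.1 hq' with rfl | hq'
        · exact h3
        · exact hp q' hq'
      · refine ihb { st with pres := (q.1, q.2 ||| 2 ^ l) :: st.pres } ?_ ha hf h2
        intro q' hq'
        rcases List.mem_cons.1 hq' with rfl | hq'
        · exact h3
        · exact hp q' hq'
  | phi i P Q a b iha ihb =>
    intro st hp ha hf h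
    simp only [check, Bool.and_eq_true, decide_eq_true_eq] at h
    obtain ⟨⟨⟨⟨hi, hP⟩, hQ⟩, h1⟩, h2⟩ := h
    rcases hdich ⟨i, hi⟩ P Q (Nat.cast_nonneg _) (Nat.cast_nonneg _) with h3 | h3
    · refine iha { st with tt := st.tt.set i (P, Q) } hp ha ?_ h1
      refine ⟨by simpa using hf.lent, hf.lens, ?_, hf.ss⟩
      intro j th hj
      by_cases hij : i = j
      · subst hij
        have hlt : (j : ℕ) < st.tt.length := by rw [hf.lent]; exact j.2
        simp only [List.getElem?_set_self hlt, Option.some.injEq] at hj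
        subst hj
        exact ⟨hQ, h3⟩
      · simp only [List.getElem?_set_ne hij] at hj
        exact hf.tt j th hj
    · refine ihb { st with ss := st.ss.set i (P, Q) } hp ha ?_ h2
      refine ⟨hf.lent, by simpa using hf.lens, hf.tt, ?_⟩
      intro j th hj
      by_cases hij : i = j
      · subst hij
        have hlt : (j : ℕ) < st.ss.length := by rw [hf.lens]; exact j.2
        simp only [List.getElem?_set_self hlt, Option.some.injEq] at hj
        subst hj
        exact ⟨hP, h3⟩
      · simp only [List.getElem?_set_ne hij] at hj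
        exact hf.ss j th hj
  | bad i j =>
    intro st hp ha hf h
    exfalso
    simp only [check] at h
    split at h
    · next p' q' hp' hq' =>
      simp only [Bool.and_eq_true, Bool.not_eq_true', beq_eq_false_iff_ne, ne_eq] at h
      obtain ⟨⟨⟨h1, h2⟩, h3⟩, h4⟩ := h
      exact bad_false hM p' q' (hp _ (List.mem_of_getElem? hp')) (hp _ (List.mem_of_getElem? hq'))
        h1 h2 h3 h4
    · exact absurd h (by simp)
  | bad2 i j =>
    intro st hp ha hf h
    exfalso
    simp only [check] at h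
    split at h
    · next p' a' hp' ha' =>
      simp only [Bool.and_eq_true, Bool.or_eq_true, decide_eq_true_eq, beq_iff_eq] at h
      exact bad2_false p' a' (hp _ (List.mem_of_getElem? hp')) (ha _ (List.mem_of_getElem? ha'))
        h.1.1 h.1.2 h.2
    · exact absurd h (by simp)

end Pool.Agent.Helper752.Hull
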