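import Mathlib
import Pool.Agent.Helper752.SquareLower

set_option autoImplicit false

namespace Pool.Agent.Helper752

open scoped ENNReal NNReal
open MeasureTheory Metric

/-- Abscissae of the corners (labels `0..3` and `4..7` both run over the corners). -/
noncomputable def zx : Fin 8 → ℝ := ![-1, 1, 1, -1, -1, 1, 1, -1]
/-- Ordinates of the corners. -/
noncomputable def zy : Fin 8 → ℝ := ![1, 1, -1, -1, 1, 1, -1, -1]
/-- The end directions of the two Steiner trees: labels `0..3` horizontal, `4..7` vertical tree. -/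
noncomputable def ux : Fin 8 → ℝ :=
  ![-1 / 2, 1 / 2, 1 / 2, -1 / 2, -(√3 / 2), √3 / 2, √3 / 2, -(√3 / 2)]
/-- The end directions of the two Steiner trees. -/
noncomputable def uy : Fin 8 → ℝ :=
  ![√3 / 2, √3 / 2, -(√3 / 2), -(√3 / 2), 1 / 2, 1 / 2, -1 / 2, -1 / 2]

theorem sq3 : √3 ^ 2 = 3 := Real.sq_sqrt (by norm_num)

theorem sq3_lt : √3 < 1.7321 := by
  rw [Real.sqrt_lt' (by norm_num)]; norm_num

theorem sq3_pos : 0 < √3 := Real.sqrt_pos.2 (by norm_num)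

theorem sum8 (f : Fin 8 → ℝ) (A : Finset (Fin 8)) :
    ∑ i ∈ A, f i = (if 0 ∈ A then f 0 else 0) + (if 1 ∈ A then f 1 else 0)
      + (if 2 ∈ A then f 2 else 0) + (if 3 ∈ A then f 3 else 0) + (if 4 ∈ A then f 4 else 0)
      + (if 5 ∈ A then f 5 else 0) + (if 6 ∈ A then f 6 else 0) + (if 7 ∈ A then f 7 else 0) := by
  have h : ∑ i ∈ A, f i = ∑ i, if i ∈ A then f i else 0 := by
    rw [Finset.sum_ite_mem]; simp
  rw [h, Fin.sum_univ_eight]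

theorem fourA {K : Set E2} {p : Fin 8 → E2} {B : ℝ} {M : Set (Finset (Fin 8))}
    (hB : ∀ φ : Fin 8 → E2 → ℝ, (∀ A ∈ M, LipOn K φ A) → (∀ x ∈ K, ∑ i, φ i x = 0) →
      ∑ i, φ i (p i) ≤ B)
    (hdir : ∀ i, 0 ≤ ux i * (p i 0 - zx i) + uy i * (p i 1 - zy i))
    (h : ∀ A ∈ M, ¬ (0 ∈ A ∧ 1 ∈ A ∧ 2 ∉ A ∧ 3 ∉ A) ∧ ¬ (0 ∉ A ∧ 1 ∉ A ∧ 2 ∈ A ∧ 3 ∈ A)) :
    2 + 2 * √3 ≤ B := by
  let X : Fin 8 → ℝ := ![-1 / 2, 1 / 2, 1 / 2, -1 / 2, 0, 0, 0, 0]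
  let Y : Fin 8 → ℝ := ![√3 / 2, √3 / 2, -(√3 / 2), -(√3 / 2), 0, 0, 0, 0]
  have key := hB (lin X Y) ?_ ?_
  · simp only [lin, Fin.sum_univ_eight] at key
    have h0 := hdir 0
    have h1 := hdir 1
    have h2 := hdir 2
    have h3 := hdir 3
    simp [ux, uy, zx, zy, X, Y] at key h0 h1 h2 h3
    linarith
  · intro A hA
    apply lin_lipOn
    rw [sum8, sum8]
    have h5 := h A hA
    have h6 := sq3
    by_cases b0 : (0 : Fin 8) ∈ A <;> by_cases b1 : (1 : Fin 8) ∈ A <;>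
      by_cases b2 : (2 : Fin 8) ∈ A <;> by_cases b3 : (3 : Fin 8) ∈ A <;>
      simp [X, Y, b0, b1, b2, b3] at h5 ⊢ <;> nlinarith
  · intro x _
    simp [lin, Fin.sum_univ_eight, X, Y]
    ring

theorem fourB {K : Set E2} {p : Fin 8 → E2} {B : ℝ} {M : Set (Finset (Fin 8))}
    (hB : ∀ φ : Fin 8 → E2 → ℝ, (∀ A ∈ M, LipOn K φ A) → (∀ x ∈ K, ∑ i, φ i x = 0) →
      ∑ i, φ i (p i) ≤ B)
    (hdir : ∀ i, 0 ≤ ux i * (p i 0 - zx i) + uy i * (p i 1 - zy i))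
    (h : ∀ A ∈ M, ¬ (4 ∈ A ∧ 7 ∈ A ∧ 5 ∉ A ∧ 6 ∉ A) ∧ ¬ (4 ∉ A ∧ 7 ∉ A ∧ 5 ∈ A ∧ 6 ∈ A)) :
    2 + 2 * √3 ≤ B := by
  let X : Fin 8 → ℝ := ![0, 0, 0, 0, -(√3 / 2), √3 / 2, √3 / 2, -(√3 / 2)]
  let Y : Fin 8 → ℝ := ![0, 0, 0, 0, 1 / 2, 1 / 2, -1 / 2, -1 / 2]
  have key := hB (lin X Y) ?_ ?_
  · simp only [lin, Fin.sum_univ_eight] at key
    have h0 := hdir 4
    have h1 := hdir 5
    have h2 := hdir 6
    have h3 := hdir 7
    simp [ux, uy, zx, zy, X, Y] at key h0 h1 h2 h3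
    linarith
  · intro A hA
    apply lin_lipOn
    rw [sum8, sum8]
    have h5 := h A hA
    have h6 := sq3
    by_cases b0 : (4 : Fin 8) ∈ A <;> by_cases b1 : (5 : Fin 8) ∈ A <;>
      by_cases b2 : (6 : Fin 8) ∈ A <;> by_cases b3 : (7 : Fin 8) ∈ A <;>
      simp [X, Y, b0, b1, b2, b3] at h5 ⊢ <;> nlinarith
  · intro x _
    simp [lin, Fin.sum_univ_eight, X, Y]
    ring

end Pool.Agent.Helper752
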