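import Mathlib
import Pool.Agent.Helper752.HullSound2
import Pool.Agent.Helper752.HullCerts
import Pool.Agent.Helper752.SquareLower2

set_option autoImplicit false

namespace Pool.Agent.Helper752.Hull

open scoped ENNReal NNReal
open MeasureTheory Metric
open Pool.Agent.Helper752

theorem fourGen {K : Set E2} {p : Fin 8 → E2} {B : ℝ} {M : Set (Finset (Fin 8))}
    (hB : ∀ φ : Fin 8 → E2 → ℝ, (∀ A ∈ M, LipOn K φ A) → (∀ x ∈ K, ∑ i, φ i x = 0) →
      ∑ i, φ i (p i) ≤ B)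
    (a0 a1 a2 a3 : Fin 8) (x0 y0 x1 y1 x2 y2 x3 y3 : ℝ)
    (hsx : x0 + x1 + x2 + x3 = 0) (hsy : y0 + y1 + y2 + y3 = 0)
    (hn : ∀ S ∈ M, ((if a0 ∈ S then x0 else 0) + (if a1 ∈ S then x1 else 0)
      + (if a2 ∈ S then x2 else 0) + (if a3 ∈ S then x3 else 0)) ^ 2
      + ((if a0 ∈ S then y0 else 0) + (if a1 ∈ S then y1 else 0)
      + (if a2 ∈ S then y2 else 0) + (if a3 ∈ S then y3 else 0)) ^ 2 ≤ 1) :
    (x0 * p a0 0 + y0 * p a0 1) + (x1 * p a1 0 + y1 * p a1 1) + (x2 * p a2 0 + y2 * p a2 1)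
      + (x3 * p a3 0 + y3 * p a3 1) ≤ B := by
  let X : Fin 8 → ℝ := fun i => (if i = a0 then x0 else 0) + (if i = a1 then x1 else 0)
    + (if i = a2 then x2 else 0) + (if i = a3 then x3 else 0)
  let Y : Fin 8 → ℝ := fun i => (if i = a0 then y0 else 0) + (if i = a1 then y1 else 0)
    + (if i = a2 then y2 else 0) + (if i = a3 then y3 else 0)
  have hX : ∀ A : Finset (Fin 8), ∑ i ∈ A, X i = (if a0 ∈ A then x0 else 0)
      + (if a1 ∈ A then x1 else 0) + (if a2 ∈ A then x2 else 0) + (if a3 ∈ A then x3 else 0) := by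
    intro A
    simp only [X, Finset.sum_add_distrib, Finset.sum_ite_eq']
  have hY : ∀ A : Finset (Fin 8), ∑ i ∈ A, Y i = (if a0 ∈ A then y0 else 0)
      + (if a1 ∈ A then y1 else 0) + (if a2 ∈ A then y2 else 0) + (if a3 ∈ A then y3 else 0) := by
    intro A
    simp only [Y, Finset.sum_add_distrib, Finset.sum_ite_eq']
  have key := hB (lin X Y) ?_ ?_
  · have hval : ∑ i, lin X Y i (p i) = (x0 * p a0 0 + y0 * p a0 1) + (x1 * p a1 0 + y1 * p a1 1)
        + (x2 * p a2 0 + y2 * p a2 1) + (x3 * p a3 0 + y3 * p a3 1) := by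
      simp only [lin, X, Y, add_mul, ite_mul, zero_mul, Finset.sum_add_distrib,
        Finset.sum_ite_eq', Finset.mem_univ, if_true]
      ring
    rw [hval] at key
    exact key
  · intro A hA
    apply lin_lipOn
    rw [hX, hY]
    exact hn A hA
  · intro x _
    have h4 : ∑ i, lin X Y i x = (∑ i, X i) * x 0 + (∑ i, Y i) * x 1 := by
      simp only [lin, Finset.sum_add_distrib, ← Finset.sum_mul]
    rw [h4, hX, hY]
    simp only [Finset.mem_univ, if_true, hsx, hsy]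
    ring

theorem corner_type (at' bt as bs : ℝ) (hbt : 0 ≤ bt) (has : 0 ≤ as)
    (hd : ∀ P Q : ℝ, 0 ≤ P → 0 ≤ Q → 0 ≤ P * at' + Q * bt ∨ 0 ≤ P * as + Q * bs) :
    ∃ τ : Fin 3,
      (0 ≤ (1 / 2) * (if τ = 0 then as else at') + (√3 / 2) * (if τ = 0 then bs else bt)) ∧
      (0 ≤ (√3 / 2) * (if τ = 2 then at' else as) + (1 / 2) * (if τ = 2 then bt else bs)) ∧
      (0 < (thT τ).2 ∧ 0 ≤ ((thT τ).1 : ℝ) * at' + ((thT τ).2 : ℝ) * bt) ∧
      (0 < (thS τ).1 ∧ 0 ≤ ((thS τ).1 : ℝ) * as + ((thS τ).2 : ℝ) * bs) := by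
  have h3 := sq3
  have hp := sq3_pos
  have hlt : √3 < 26 / 15 := by
    rw [Real.sqrt_lt' (by norm_num)]; norm_num
  have hgt : 19 / 11 < √3 := by
    rw [Real.lt_sqrt (by norm_num)]; norm_num
  by_cases hB : 0 ≤ √3 * at' + bt
  · refine ⟨2, ?_, ?_, ?_, ?_⟩
    · simp only [show (2 : Fin 3) ≠ 0 from by decide, if_false]
      have : √3 * ((1 / 2) * at' + (√3 / 2) * bt) = (1 / 2) * (√3 * at' + bt) + bt := by
        linear_combination (bt / 2) * h3
      have h4 : 0 ≤ √3 * ((1 / 2) * at' + (√3 / 2) * bt) := by rw [this]; linarith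
      exact nonneg_of_mul_nonneg_right h4 hp
    · simp only [if_true]; linarith
    · refine ⟨by decide, ?_⟩
      simp only [thT, Matrix.cons_val]
      push_cast
      have : √3 * (19 * at' + 11 * bt) = 19 * (√3 * at' + bt) + (11 * √3 - 19) * bt := by ring
      have h4 : 0 ≤ √3 * (19 * at' + 11 * bt) := by
        rw [this]
        have : 0 ≤ (11 * √3 - 19) * bt := mul_nonneg (by linarith) hbt
        linarith
      exact nonneg_of_mul_nonneg_right h4 hp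
    · refine ⟨by decide, ?_⟩
      simp only [thS, Matrix.cons_val]
      push_cast
      linarith
  · have hBs : 0 ≤ √3 * as + bs := by
      rcases hd √3 1 hp.le (by norm_num) with h | h
      · exact absurd (by linarith) hB
      · linarith
    by_cases hA : 0 ≤ at' + √3 * bt
    · refine ⟨1, ?_, ?_, ?_, ?_⟩
      · simp only [show (1 : Fin 3) ≠ 0 from by decide, if_false]; linarith
      · simp only [show (1 : Fin 3) ≠ 2 from by decide, if_false]; linarith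
      · refine ⟨by decide, ?_⟩
        simp only [thT, Matrix.cons_val]
        push_cast
        have : 15 * at' + 26 * bt = 15 * (at' + √3 * bt) + (26 - 15 * √3) * bt := by ring
        rw [this]
        have : 0 ≤ (26 - 15 * √3) * bt := mul_nonneg (by linarith) hbt
        linarith
      · refine ⟨by decide, ?_⟩
        simp only [thS, Matrix.cons_val]
        push_cast
        have : 26 * as + 15 * bs = 15 * (√3 * as + bs) + (26 - 15 * √3) * as := by ring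
        rw [this]
        have : 0 ≤ (26 - 15 * √3) * as := mul_nonneg (by linarith) has
        linarith
    · have hAs : 0 ≤ as + √3 * bs := by
        rcases hd 1 √3 (by norm_num) hp.le with h | h
        · exact absurd (by linarith) hA
        · linarith
      refine ⟨0, ?_, ?_, ?_, ?_⟩
      · simp only [if_true]; linarith
      · simp only [show (0 : Fin 3) ≠ 2 from by decide, if_false]; linarith
      · refine ⟨by decide, ?_⟩
        simp only [thT, Matrix.cons_val]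
        push_cast
        linarith
      · refine ⟨by decide, ?_⟩
        simp only [thS, Matrix.cons_val]
        push_cast
        have : √3 * (11 * as + 19 * bs) = 19 * (as + √3 * bs) + (11 * √3 - 19) * as := by ring
        have h4 : 0 ≤ √3 * (11 * as + 19 * bs) := by
          rw [this]
          have : 0 ≤ (11 * √3 - 19) * as := mul_nonneg (by linarith) has
          linarith
        exact nonneg_of_mul_nonneg_right h4 hp

/-- label for the horizontal tree -/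
def aF (i : Fin 4) (t : Fin 3) : Fin 8 := if t = 0 then ⟨2 * i + 1, by omega⟩ else ⟨2 * i, by omega⟩
/-- label for the vertical tree -/
def bF (i : Fin 4) (t : Fin 3) : Fin 8 := if t = 2 then ⟨2 * i, by omega⟩ else ⟨2 * i + 1, by omega⟩

theorem presP_of {M : Set (Finset (Fin 8))} (a0 a1 a2 a3 : Fin 8) (S : Finset (Fin 8)) (hS : S ∈ M)
    (h : (a0 ∈ S ∧ a1 ∈ S ∧ a2 ∉ S ∧ a3 ∉ S) ∨ (a0 ∉ S ∧ a1 ∉ S ∧ a2 ∈ S ∧ a3 ∈ S)) :
    PresP M (2 ^ (a0 : ℕ) ||| 2 ^ (a1 : ℕ), 2 ^ (a2 : ℕ) ||| 2 ^ (a3 : ℕ)) := by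
  have h2 : ∀ (x y i : Fin 8), (2 ^ (x : ℕ) ||| 2 ^ (y : ℕ)).testBit (i : ℕ) = true →
      i = x ∨ i = y := by
    intro x y i hi
    rw [Nat.testBit_or, Nat.testBit_two_pow, Nat.testBit_two_pow] at hi
    simp at hi
    rcases hi with hi | hi
    · left; exact Fin.ext hi.symm
    · right; exact Fin.ext hi.symm
  refine ⟨S, hS, ?_⟩
  rcases h with ⟨h0, h1, h3, h4⟩ | ⟨h0, h1, h3, h4⟩
  · left
    constructor
    · intro i hi
      rcases h2 _ _ _ hi with rfl | rfl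
      · exact h0
      · exact h1
    · intro i hi
      rcases h2 _ _ _ hi with rfl | rfl
      · exact h3
      · exact h4
  · right
    constructor
    · intro i hi
      rcases h2 _ _ _ hi with rfl | rfl
      · exact h3
      · exact h4
    · intro i hi
      rcases h2 _ _ _ hi with rfl | rfl
      · exact h0
      · exact h1

theorem hull8 {K : Set E2} {p : Fin 8 → E2} {B : ℝ} {M : Set (Finset (Fin 8))}
    (hM : Laminar M)
    (hB : ∀ φ : Fin 8 → E2 → ℝ, (∀ A ∈ M, LipOn K φ A) → (∀ x ∈ K, ∑ i, φ i x = 0) →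
      ∑ i, φ i (p i) ≤ B)
    (hbt : ∀ i : Fin 4, 0 ≤ exb p ⟨2 * i, by omega⟩)
    (has : ∀ i : Fin 4, 0 ≤ exa p ⟨2 * i + 1, by omega⟩)
    (hdich : ∀ (i : Fin 4) (P Q : ℝ), 0 ≤ P → 0 ≤ Q →
      0 ≤ P * exa p ⟨2 * i, by omega⟩ + Q * exb p ⟨2 * i, by omega⟩ ∨
      0 ≤ P * exa p ⟨2 * i + 1, by omega⟩ + Q * exb p ⟨2 * i + 1, by omega⟩) :
    2 + 2 * √3 ≤ B := by
  have hty := fun i : Fin 4 => corner_type _ _ _ _ (hbt i) (has i) (hdich i)
  choose τ hτ using hty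
  have hA : ∀ i, 0 ≤ (1 / 2) * exa p (aF i (τ i)) + (√3 / 2) * exb p (aF i (τ i)) := by
    intro i
    have h := (hτ i).1
    unfold aF
    split_ifs at h ⊢ with h0
    · exact h
    · exact h
  have hBv : ∀ i, 0 ≤ (√3 / 2) * exa p (bF i (τ i)) + (1 / 2) * exb p (bF i (τ i)) := by
    intro i
    have h := (hτ i).2.1
    unfold bF
    split_ifs at h ⊢ with h0
    · exact h
    · exact h
  have hsa : ∀ i, sgx (aF i (τ i)) = sgx ⟨2 * i, by omega⟩ ∧
      sgy (aF i (τ i)) = sgy ⟨2 * i, by omega⟩ := by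
    intro i
    unfold aF
    split_ifs <;> fin_cases i <;> exact ⟨rfl, rfl⟩
  have hsb : ∀ i, sgx (bF i (τ i)) = sgx ⟨2 * i, by omega⟩ ∧
      sgy (bF i (τ i)) = sgy ⟨2 * i, by omega⟩ := by
    intro i
    unfold bF
    split_ifs <;> fin_cases i <;> exact ⟨rfl, rfl⟩
  have h3 := sq3
  by_cases h1 : ∀ S ∈ M, ¬ ((aF 0 (τ 0) ∈ S ∧ aF 1 (τ 1) ∈ S ∧ aF 2 (τ 2) ∉ S ∧ aF 3 (τ 3) ∉ S) ∨
      (aF 0 (τ 0) ∉ S ∧ aF 1 (τ 1) ∉ S ∧ aF 2 (τ 2) ∈ S ∧ aF 3 (τ 3) ∈ S))
  · have key := fourGen hB (aF 0 (τ 0)) (aF 1 (τ 1)) (aF 2 (τ 2)) (aF 3 (τ 3)) (-1 / 2) (√3 / 2)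
      (1 / 2) (√3 / 2) (1 / 2) (-(√3 / 2)) (-1 / 2) (-(√3 / 2)) (by ring) (by ring) ?_
    · have k0 := hA 0
      have k1 := hA 1
      have k2 := hA 2
      have k3 := hA 3
      simp only [exa, exb, (hsa 0).1, (hsa 0).2] at k0
      simp only [exa, exb, (hsa 1).1, (hsa 1).2] at k1
      simp only [exa, exb, (hsa 2).1, (hsa 2).2] at k2
      simp only [exa, exb, (hsa 3).1, (hsa 3).2] at k3
      have e0 : sgx ⟨2 * ((0 : Fin 4) : ℕ), by decide⟩ = -1 := rfl
      have e1 : sgx ⟨2 * ((1 : Fin 4) : ℕ), by decide⟩ = 1 := rfl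
      have e2 : sgx ⟨2 * ((2 : Fin 4) : ℕ), by decide⟩ = 1 := rfl
      have e3 : sgx ⟨2 * ((3 : Fin 4) : ℕ), by decide⟩ = -1 := rfl
      have f0 : sgy ⟨2 * ((0 : Fin 4) : ℕ), by decide⟩ = 1 := rfl
      have f1 : sgy ⟨2 * ((1 : Fin 4) : ℕ), by decide⟩ = 1 := rfl
      have f2 : sgy ⟨2 * ((2 : Fin 4) : ℕ), by decide⟩ = -1 := rfl
      have f3 : sgy ⟨2 * ((3 : Fin 4) : ℕ), by decide⟩ = -1 := rfl
      rw [e0, f0] at k0
      rw [e1, f1] at k1
      rw [e2, f2] at k2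
      rw [e3, f3] at k3
      push_cast at k0 k1 k2 k3
      linarith
    · intro S hS
      have h5 := h1 S hS
      by_cases b0 : aF 0 (τ 0) ∈ S <;> by_cases b1 : aF 1 (τ 1) ∈ S <;>
        by_cases b2 : aF 2 (τ 2) ∈ S <;> by_cases b3 : aF 3 (τ 3) ∈ S <;>
        simp [b0, b1, b2, b3] at h5 ⊢ <;> nlinarith
  by_cases h2 : ∀ S ∈ M, ¬ ((bF 0 (τ 0) ∈ S ∧ bF 3 (τ 3) ∈ S ∧ bF 1 (τ 1) ∉ S ∧ bF 2 (τ 2) ∉ S) ∨
      (bF 0 (τ 0) ∉ S ∧ bF 3 (τ 3) ∉ S ∧ bF 1 (τ 1) ∈ S ∧ bF 2 (τ 2) ∈ S))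
  · have key := fourGen hB (bF 0 (τ 0)) (bF 1 (τ 1)) (bF 2 (τ 2)) (bF 3 (τ 3)) (-(√3 / 2)) (1 / 2)
      (√3 / 2) (1 / 2) (√3 / 2) (-1 / 2) (-(√3 / 2)) (-1 / 2) (by ring) (by ring) ?_
    · have k0 := hBv 0
      have k1 := hBv 1
      have k2 := hBv 2
      have k3 := hBv 3
      simp only [exa, exb, (hsb 0).1, (hsb 0).2] at k0
      simp only [exa, exb, (hsb 1).1, (hsb 1).2] at k1
      simp only [exa, exb, (hsb 2).1, (hsb 2).2] at k2
      simp only [exa, exb, (hsb 3).1, (hsb 3).2] at k3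
      have e0 : sgx ⟨2 * ((0 : Fin 4) : ℕ), by decide⟩ = -1 := rfl
      have e1 : sgx ⟨2 * ((1 : Fin 4) : ℕ), by decide⟩ = 1 := rfl
      have e2 : sgx ⟨2 * ((2 : Fin 4) : ℕ), by decide⟩ = 1 := rfl
      have e3 : sgx ⟨2 * ((3 : Fin 4) : ℕ), by decide⟩ = -1 := rfl
      have f0 : sgy ⟨2 * ((0 : Fin 4) : ℕ), by decide⟩ = 1 := rfl
      have f1 : sgy ⟨2 * ((1 : Fin 4) : ℕ), by decide⟩ = 1 := rfl
      have f2 : sgy ⟨2 * ((2 : Fin 4) : ℕ), by decide⟩ = -1 := rfl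
      have f3 : sgy ⟨2 * ((3 : Fin 4) : ℕ), by decide⟩ = -1 := rfl
      rw [e0, f0] at k0
      rw [e1, f1] at k1
      rw [e2, f2] at k2
      rw [e3, f3] at k3
      push_cast at k0 k1 k2 k3
      linarith
    · intro S hS
      have h5 := h2 S hS
      by_cases b0 : bF 0 (τ 0) ∈ S <;> by_cases b1 : bF 1 (τ 1) ∈ S <;>
        by_cases b2 : bF 2 (τ 2) ∈ S <;> by_cases b3 : bF 3 (τ 3) ∈ S <;>
        simp [b0, b1, b2, b3] at h5 ⊢ <;> nlinarith
  simp only [not_forall, not_not] at h1 h2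
  obtain ⟨S, hS, hS'⟩ := h1
  obtain ⟨T, hT, hT'⟩ := h2
  have P1 := presP_of _ _ _ _ S hS hS'
  have P2 := presP_of _ _ _ _ T hT hT'
  have hval : ∀ i t, ((aF i t : Fin 8) : ℕ) = aLab i t := by
    intro i t; unfold aF aLab; split_ifs <;> rfl
  have hval' : ∀ i t, ((bF i t : Fin 8) : ℕ) = bLab i t := by
    intro i t; unfold bF bLab; split_ifs <;> rfl
  rw [hval, hval, hval, hval] at P1
  rw [hval', hval', hval', hval'] at P2
  have hchk := all_ok (τ 0) (τ 1) (τ 2) (τ 3)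
  have := check_sound hM hB hbt has hdich _ (initSt (τ 0) (τ 1) (τ 2) (τ 3)) ?_ ?_ ?_ hchk
  · have := sq3_lt
    linarith
  · intro q hq
    simp only [initSt, List.mem_cons, List.not_mem_nil, or_false] at hq
    rcases hq with rfl | rfl
    · exact P1
    · exact P2
  · intro q hq
    simp [initSt] at hq
  · refine ⟨rfl, rfl, ?_, ?_⟩
    · intro i th hth
      have h := (hτ i).2.2.1
      fin_cases i <;> (simp [initSt] at hth; subst hth; exact h)
    · intro i th hth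
      have h := (hτ i).2.2.2
      fin_cases i <;> (simp [initSt] at hth; subst hth; exact h)

end Pool.Agent.Helper752.Hull
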