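import Mathlib
import Pool.Agent.Helper752.HullMain

set_option autoImplicit false

namespace Pool.Agent.Helper752.Hull

open scoped ENNReal NNReal
open MeasureTheory Metric
open Pool.Agent.Helper752

/-- Label existence: if every nonnegative combination of `a`, `b` is nonnegative somewhere on `K`
then two points of `K` suffice, one with `b ≥ 0`, one with `a ≥ 0`. -/
theorem labels {K : Set E2} (hK : IsCompact K) (a b : E2 → ℝ) (ha : Continuous a)
    (hb : Continuous b)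
    (h : ∀ P Q : ℝ, 0 ≤ P → 0 ≤ Q → ∃ p ∈ K, 0 ≤ P * a p + Q * b p) :
    ∃ t s : E2, t ∈ K ∧ s ∈ K ∧ 0 ≤ b t ∧ 0 ≤ a s ∧
      ∀ P Q : ℝ, 0 ≤ P → 0 ≤ Q → 0 ≤ P * a t + Q * b t ∨ 0 ≤ P * a s + Q * b s := by
  let T : Set (ℝ × E2) := (Set.Icc (0 : ℝ) 1 ×ˢ K) ∩
    {q | 0 ≤ b q.2 ∧ 0 ≤ q.1 * a q.2 + (1 - q.1) * b q.2}
  let S : Set (ℝ × E2) := (Set.Icc (0 : ℝ) 1 ×ˢ K) ∩
    {q | 0 ≤ a q.2 ∧ 0 ≤ q.1 * a q.2 + (1 - q.1) * b q.2}
  have hcA : Continuous fun q : ℝ × E2 => a q.2 := ha.comp continuous_snd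
  have hcB : Continuous fun q : ℝ × E2 => b q.2 := hb.comp continuous_snd
  have hcC : Continuous fun q : ℝ × E2 => q.1 * a q.2 + (1 - q.1) * b q.2 :=
    (continuous_fst.mul hcA).add ((continuous_const.sub continuous_fst).mul hcB)
  have hTc : IsCompact T := by
    apply (isCompact_Icc.prod hK).inter_right
    exact (isClosed_le continuous_const hcB).inter (isClosed_le continuous_const hcC)
  have hSc : IsCompact S := by
    apply (isCompact_Icc.prod hK).inter_right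
    exact (isClosed_le continuous_const hcA).inter (isClosed_le continuous_const hcC)
  have hT' : IsClosed (Prod.fst '' T) := (hTc.image continuous_fst).isClosed
  have hS' : IsClosed (Prod.fst '' S) := (hSc.image continuous_fst).isClosed
  have hcov : Set.Icc (0 : ℝ) 1 ⊆ Prod.fst '' T ∪ Prod.fst '' S := by
    intro θ hθ
    obtain ⟨p, hpK, hp⟩ := h θ (1 - θ) hθ.1 (by linarith [hθ.2])
    by_cases hbp : 0 ≤ b p
    · left
      exact ⟨(θ, p), ⟨⟨hθ, hpK⟩, hbp, hp⟩, rfl⟩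
    · right
      have hap : 0 ≤ a p := by
        by_contra hap
        push Not at hap hbp
        rcases eq_or_lt_of_le hθ.1 with h0 | h0
        · rw [← h0] at hp; linarith
        · have h1 : θ * a p < 0 := mul_neg_of_pos_of_neg h0 hap
          have h2 : (1 - θ) * b p ≤ 0 :=
            mul_nonpos_of_nonneg_of_nonpos (by linarith [hθ.2]) hbp.le
          linarith
      exact ⟨(θ, p), ⟨⟨hθ, hpK⟩, hap, hp⟩, rfl⟩
  have h0 : (Set.Icc (0 : ℝ) 1 ∩ Prod.fst '' T).Nonempty := by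
    obtain ⟨p, hpK, hp⟩ := h 0 1 le_rfl zero_le_one
    refine ⟨0, ⟨le_rfl, zero_le_one⟩, ⟨(0, p), ⟨⟨⟨le_rfl, zero_le_one⟩, hpK⟩, ?_, ?_⟩, rfl⟩⟩
    · simp only; linarith
    · simp only; linarith
  have h1 : (Set.Icc (0 : ℝ) 1 ∩ Prod.fst '' S).Nonempty := by
    obtain ⟨p, hpK, hp⟩ := h 1 0 zero_le_one le_rfl
    refine ⟨1, ⟨zero_le_one, le_rfl⟩, ⟨(1, p), ⟨⟨⟨zero_le_one, le_rfl⟩, hpK⟩, ?_, ?_⟩, rfl⟩⟩
    · simp only; linarith
    · simp only; linarith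
  obtain ⟨θ, hθ, ⟨⟨θ1, t⟩, ⟨⟨_, htK⟩, ht1, ht2⟩, rfl⟩, ⟨⟨θ2, s⟩, ⟨⟨_, hsK⟩, hs1, hs2⟩, hθs⟩⟩ :=
    isPreconnected_closed_iff.1 isPreconnected_Icc _ _ hT' hS' hcov h0 h1
  simp only at hθ ht1 ht2 htK hsK hs1 hs2 hθs
  subst hθs
  refine ⟨t, s, htK, hsK, ht1, hs1, ?_⟩
  intro P Q hP hQ
  rcases le_or_gt (P * (1 - θ2)) (Q * θ2) with hle | hlt
  · left
    rcases eq_or_lt_of_le hθ.1 with h0 | h0
    · have : P = 0 := by rw [← h0] at hle; linarith
      rw [this]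
      have := mul_nonneg hQ ht1
      linarith
    · have e : θ2 * (P * a t + Q * b t) = P * (θ2 * a t + (1 - θ2) * b t)
          + (Q * θ2 - P * (1 - θ2)) * b t := by ring
      have h4 : 0 ≤ θ2 * (P * a t + Q * b t) := by
        rw [e]
        exact add_nonneg (mul_nonneg hP ht2) (mul_nonneg (by linarith) ht1)
      exact nonneg_of_mul_nonneg_right h4 h0
  · right
    have h0 : 0 < 1 - θ2 := by
      rcases eq_or_lt_of_le hθ.2 with h | h
      · rw [h] at hlt; simp at hlt; linarith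
      · linarith
    have e : (1 - θ2) * (P * a s + Q * b s) = Q * (θ2 * a s + (1 - θ2) * b s)
        + (P * (1 - θ2) - Q * θ2) * a s := by ring
    have h4 : 0 ≤ (1 - θ2) * (P * a s + Q * b s) := by
      rw [e]
      exact add_nonneg (mul_nonneg hQ hs2) (mul_nonneg (by linarith) hs1)
    exact nonneg_of_mul_nonneg_right h4 h0

/-- A connected compact set in the plane whose directional hull contains the four corners
`(±1, ±1)` has length at least `2 + 2 √3`: it suffices that in every direction `(±P, ±Q)` of the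
closed quadrant of the corner, the set reaches at least as far as the corner. -/
theorem hull_lower {K : Set E2} (hK : IsCompact K) (hc : IsConnected K)
    (h : ∀ (sx sy : ℝ), (sx = 1 ∨ sx = -1) → (sy = 1 ∨ sy = -1) → ∀ P Q : ℝ, 0 ≤ P → 0 ≤ Q →
      ∃ p ∈ K, 0 ≤ P * (sx * p 0 - 1) + Q * (sy * p 1 - 1)) :
    ENNReal.ofReal (2 + 2 * √3) ≤ μH[1] K := by
  have hl : ∀ i : Fin 4, ∃ t s : E2, t ∈ K ∧ s ∈ K ∧
      0 ≤ ((sgy ⟨2 * i, by omega⟩ : ℤ) : ℝ) * t 1 - 1 ∧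
      0 ≤ ((sgx ⟨2 * i, by omega⟩ : ℤ) : ℝ) * s 0 - 1 ∧
      ∀ P Q : ℝ, 0 ≤ P → 0 ≤ Q →
        0 ≤ P * (((sgx ⟨2 * i, by omega⟩ : ℤ) : ℝ) * t 0 - 1)
            + Q * (((sgy ⟨2 * i, by omega⟩ : ℤ) : ℝ) * t 1 - 1) ∨
        0 ≤ P * (((sgx ⟨2 * i, by omega⟩ : ℤ) : ℝ) * s 0 - 1)
            + Q * (((sgy ⟨2 * i, by omega⟩ : ℤ) : ℝ) * s 1 - 1) := by
    intro i
    have hx : ((sgx ⟨2 * i, by omega⟩ : ℤ) : ℝ) = 1 ∨ ((sgx ⟨2 * i, by omega⟩ : ℤ) : ℝ) = -1 := by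
      fin_cases i <;> simp [sgx]
    have hy : ((sgy ⟨2 * i, by omega⟩ : ℤ) : ℝ) = 1 ∨ ((sgy ⟨2 * i, by omega⟩ : ℤ) : ℝ) = -1 := by
      fin_cases i <;> simp [sgy]
    refine labels hK (fun x => ((sgx ⟨2 * i, by omega⟩ : ℤ) : ℝ) * x 0 - 1)
      (fun x => ((sgy ⟨2 * i, by omega⟩ : ℤ) : ℝ) * x 1 - 1) (by fun_prop) (by fun_prop) ?_
    exact h _ _ hx hy
  choose t s ht hs h1 h2 h3 using hl
  let p : Fin 8 → E2 := fun l => if (l : ℕ) % 2 = 0 then t ⟨(l : ℕ) / 2, by omega⟩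
    else s ⟨(l : ℕ) / 2, by omega⟩
  have hpt : ∀ i : Fin 4, p ⟨2 * i, by omega⟩ = t i := by
    intro i
    fin_cases i <;> rfl
  have hps : ∀ i : Fin 4, p ⟨2 * i + 1, by omega⟩ = s i := by
    intro i
    fin_cases i <;> rfl
  have hpK : ∀ l, p l ∈ K := by
    intro l
    simp only [p]
    split_ifs
    · exact ht _
    · exact hs _
  have hgx : ∀ i : Fin 4, sgx ⟨2 * i + 1, by omega⟩ = sgx ⟨2 * i, by omega⟩ := by
    intro i; fin_cases i <;> rfl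
  have hgy : ∀ i : Fin 4, sgy ⟨2 * i + 1, by omega⟩ = sgy ⟨2 * i, by omega⟩ := by
    intro i; fin_cases i <;> rfl
  by_contra hlt
  push Not at hlt
  have hfin : μH[1] K ≠ ∞ := ne_top_of_lt hlt
  set L := (μH[1] K).toReal with hL
  have hL0 : 0 ≤ L := ENNReal.toReal_nonneg
  have hLlt : L < 2 + 2 * √3 := by
    rw [hL]
    exact (ENNReal.lt_ofReal_iff_toReal_lt hfin).1 hlt
  obtain ⟨M, hM, _, hB⟩ := exists_laminar hK hc p hpK L hL0 (by rw [hL, ENNReal.ofReal_toReal hfin])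
    ((2 + 2 * √3 - L) / 2) (by linarith)
  have := hull8 hM hB ?_ ?_ ?_
  · linarith
  · intro i
    rw [exb, hpt]
    exact h1 i
  · intro i
    rw [exa, hps, hgx]
    exact h2 i
  · intro i P Q hP hQ
    rw [exa, exb, exa, exb, hpt, hps, hgx, hgy]
    exact h3 i P Q hP hQ

end Pool.Agent.Helper752.Hull
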